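import Mathlib
import Pool.Agent.Lib.MP_4006b4_co_d.Ind

/-!
# Removing an edge or a link, and the extension lemma with a spare unit
-/

open Finset

namespace Pool.Agent.Lib.MP_4006b4_co_d

/-- Remove `dh` edges and `dm` links at the pair `{p, q}` and change the thresholds. -/
def Str.rem (G : Str) (p q dh dm : ℕ) (t s : ℕ → ℕ) : Str :=
  ⟨G.V, fun v w => G.h v w - dh * dl p q v w, fun v w => G.m v w - dm * dl p q v w, t, s⟩

theorem dl_le_one (p q v w : ℕ) : dl p q v w ≤ 1 := by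
  unfold dl
  split_ifs <;> omega

theorem dl_pq (p q : ℕ) : dl p q p q = 1 := by simp [dl]

theorem dl_zero {p q v w : ℕ} (h : ¬ ((v = p ∧ w = q) ∨ (v = q ∧ w = p))) : dl p q v w = 0 :=
  if_neg h

theorem dl_zero_left {p q v w : ℕ} (h1 : v ≠ p) (h2 : v ≠ q) : dl p q v w = 0 :=
  dl_zero (by tauto)

theorem dl_zero_right {p q v w : ℕ} (h1 : v ≠ q) (h2 : w ≠ q) : dl p q v w = 0 :=
  dl_zero (by tauto)

section

variable {a b : ℕ} {G : Str}

theorem dl_le_h (wf : G.WF a b) {p q dh : ℕ} (h : dh ≤ G.h p q) (v w : ℕ) :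
    dh * dl p q v w ≤ G.h v w := by
  unfold dl
  split_ifs with hc
  · rcases hc with ⟨rfl, rfl⟩ | ⟨rfl, rfl⟩
    · omega
    · rw [wf.hsymm]
      omega
  · omega

theorem dl_le_m (wf : G.WF a b) {p q dm : ℕ} (h : dm ≤ G.m p q) (v w : ℕ) :
    dm * dl p q v w ≤ G.m v w := by
  unfold dl
  split_ifs with hc
  · rcases hc with ⟨rfl, rfl⟩ | ⟨rfl, rfl⟩
    · omega
    · rw [wf.msymm]
      omega
  · omega

theorem rem_wf (wf : G.WF a b) {p q dh dm : ℕ} {t s : ℕ → ℕ}
    (ht : ∀ v, t v ≤ G.t v) (hs : ∀ v, s v ≤ G.s v) : (G.rem p q dh dm t s).WF a b where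
  hsymm := fun v w => by
    show G.h v w - dh * dl p q v w = G.h w v - dh * dl p q w v
    rw [wf.hsymm v w, dl_symm]
  msymm := fun v w => by
    show G.m v w - dm * dl p q v w = G.m w v - dm * dl p q w v
    rw [wf.msymm v w, dl_symm]
  hirr := fun v => by
    show G.h v v - dh * dl p q v v = 0
    rw [wf.hirr v]
    exact Nat.zero_sub _
  mirr := fun v => by
    show G.m v v - dm * dl p q v v = 0
    rw [wf.mirr v]
    exact Nat.zero_sub _
  hle := fun v w => (Nat.sub_le _ _).trans (wf.hle v w)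
  tb := fun v hv w hw h => (Nat.add_le_add_right (ht v) 1).trans
    (wf.tb v hv w hw (fun h0 => h (by
      show G.h v w - dh * dl p q v w = 0
      rw [h0]
      exact Nat.zero_sub _)))
  sb := fun v hv w hw h => (Nat.add_le_add_right (hs v) 1).trans
    (wf.sb v hv w hw (fun h0 => h (by
      show G.h v w - dh * dl p q v w = 0
      rw [h0]
      exact Nat.zero_sub _)))

theorem rem_rho (wf : G.WF a b) {p q dh dm : ℕ} (hpq : p ≠ q) (h1 : dh ≤ G.h p q)
    (h2 : dm ≤ G.m p q) (t s : ℕ → ℕ) (S : Finset ℕ) :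
    rho a b (G.rem p q dh dm t s) S = rho a b G S
      - ((∑ v ∈ S, (a : ℤ) * ((G.t v : ℤ) - t v)) + ∑ v ∈ S, (b : ℤ) * ((G.s v : ℤ) - s v))
      + if p ∈ S ∧ q ∈ S then (b : ℤ) * (a - 1) * dh + a * dm else 0 := by
  rw [rho_mod (G := G) hpq S (dh : ℤ) (dm : ℤ)
    (fun v => (a : ℤ) * ((G.t v : ℤ) - t v) + (b : ℤ) * ((G.s v : ℤ) - s v)),
    sum_add_distrib]
  · intro v _ w _
    show ((G.h v w - dh * dl p q v w : ℕ) : ℤ) = _
    rw [Nat.cast_sub (dl_le_h wf h1 v w)]
    push_cast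
    ring
  · intro v _ w _
    show ((G.m v w - dm * dl p q v w : ℕ) : ℤ) = _
    rw [Nat.cast_sub (dl_le_m wf h2 v w)]
    push_cast
    ring
  · intro v _
    show (a : ℤ) * (t v : ℤ) + b * (s v : ℤ) - b = _
    unfold rv
    ring

theorem hc_rem_lt {p q dm : ℕ} (hp : p ∈ G.V) (hq : q ∈ G.V)
    (h1 : G.h p q ≠ 0) (t s : ℕ → ℕ) : hc (G.rem p q 1 dm t s) < hc G := by
  unfold hc
  show ∑ v ∈ G.V, ∑ w ∈ G.V, (G.h v w - 1 * dl p q v w) < _
  refine sum_lt_sum (fun v _ => sum_le_sum fun w _ => Nat.sub_le _ _) ⟨p, hp, ?_⟩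
  refine sum_lt_sum (fun w _ => Nat.sub_le _ _) ⟨q, hq, ?_⟩
  rw [dl_pq]
  omega

theorem mc_rem_lt {p q dh : ℕ} (hp : p ∈ G.V) (hq : q ∈ G.V)
    (h1 : G.m p q ≠ 0) (t s : ℕ → ℕ) : mc (G.rem p q dh 1 t s) < mc G := by
  unfold mc
  show ∑ v ∈ G.V, ∑ w ∈ G.V, (G.m v w - 1 * dl p q v w) < _
  refine sum_lt_sum (fun v _ => sum_le_sum fun w _ => Nat.sub_le _ _) ⟨p, hp, ?_⟩
  refine sum_lt_sum (fun w _ => Nat.sub_le _ _) ⟨q, hq, ?_⟩
  rw [dl_pq]
  omega

theorem less_rem {p q dh dm : ℕ} (hp : p ∈ G.V) (hq : q ∈ G.V) (h1 : dh ≤ G.h p q)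
    (h2 : dm ≤ G.m p q) (h3 : dh + dm = 1) (t s : ℕ → ℕ) : Less (G.rem p q dh dm t s) G := by
  have hle : hc (G.rem p q dh dm t s) ≤ hc G :=
    hc_mono (G := G) (G' := G.rem p q dh dm t s) (fun _ h => h) fun v _ w _ => Nat.sub_le _ _
  rcases Nat.eq_zero_or_pos dh with h0 | h0
  · subst h0
    have : dm = 1 := by omega
    subst this
    exact Or.inr ⟨hle, Or.inr ⟨le_rfl, mc_rem_lt hp hq (by omega) t s⟩⟩
  · have e1 : dh = 1 := by omega
    subst e1
    exact Or.inl (hc_rem_lt hp hq (by omega) t s)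

theorem MinCE.rem (M : MinCE a b G) {p q dh dm : ℕ} (hp : p ∈ G.V) (hq : q ∈ G.V) (hpq : p ≠ q)
    (h1 : dh ≤ G.h p q) (h2 : dm ≤ G.m p q) (h3 : dh + dm = 1) {t s : ℕ → ℕ}
    (ht : ∀ v, t v ≤ G.t v) (hs : ∀ v, s v ≤ G.s v)
    (hn : ¬ Colorable (G.rem p q dh dm t s)) :
    ∃ S ⊆ G.V, S.Nonempty ∧ rho a b G S
      - ((∑ v ∈ S, (a : ℤ) * ((G.t v : ℤ) - t v)) + ∑ v ∈ S, (b : ℤ) * ((G.s v : ℤ) - s v))
      + (if p ∈ S ∧ q ∈ S then (b : ℤ) * (a - 1) * dh + a * dm else 0) ≤ -(b : ℤ) := by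
  obtain ⟨S, hS, hne, hr⟩ := M.ihc (rem_wf M.wf ht hs) (less_rem hp hq h1 h2 h3 t s) hn
  rw [rem_rho M.wf hpq h1 h2] at hr
  exact ⟨S, hS, hne, hr⟩

theorem IsCol.mono {G' : Str} (hV : G'.V ⊆ G.V)
    (hh : ∀ v ∈ G'.V, ∀ w ∈ G'.V, G'.h v w ≤ G.h v w)
    (hm : ∀ v ∈ G'.V, ∀ w ∈ G'.V, G'.m v w ≤ G.m v w)
    (ht : ∀ v ∈ G'.V, G.t v ≤ G'.t v) (hs : ∀ v ∈ G'.V, G.s v ≤ G'.s v)
    {x : ℕ → Bool} {A : ℕ → ℕ → ℕ} (hc : IsCol G x A) : IsCol G' x A := by
  refine ⟨fun v hv w hw hne => (hm v hv w hw).trans (hc.cov v (hV hv) w (hV hw) hne), ?_⟩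
  intro v hv
  have h1 : load G' x A G'.V v ≤ load G x A G.V v := by
    unfold load
    refine (sum_le_sum fun w hw => ?_).trans (sum_le_sum_of_subset hV)
    refine Nat.add_le_add_right ?_ _
    split_ifs
    · exact hh v hv w hw
    · exact le_rfl
  have h2 : thr G (x v) v ≤ thr G' (x v) v := by
    unfold thr
    split_ifs
    · exact ht v hv
    · exact hs v hv
  have := hc.cap v (hV hv)
  omega

theorem load_le_rem {p q : ℕ} (hpq : p ≠ q) (dh dm : ℕ) (t s : ℕ → ℕ) (x : ℕ → Bool)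
    (B : ℕ → ℕ → ℕ) (W : Finset ℕ) (v : ℕ) :
    load G x B W v ≤ load (G.rem p q dh dm t s) x B W v
      + if x p = x q ∧ (v = p ∨ v = q) then dh else 0 := by
  have e1 : load G x B W v ≤ load (G.rem p q dh dm t s) x B W v
      + ∑ w ∈ W, if x v = x w then dh * dl p q v w else 0 := by
    unfold load
    rw [← sum_add_distrib]
    refine sum_le_sum fun w _ => ?_
    show _ ≤ ((if x v = x w then G.h v w - dh * dl p q v w else 0) + B v w) + _
    split_ifs <;> omega
  refine e1.trans (Nat.add_le_add_left ?_ _)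
  by_cases hv : v = p
  · subst hv
    have e2 : ∀ w ∈ W, (if x v = x w then dh * dl v q v w else 0)
        = if w = q then (if x v = x q then dh else 0) else 0 := by
      intro w _
      by_cases hw : w = q
      · subst hw
        rw [dl_pq, if_pos rfl, mul_one]
      · rw [dl_zero (by tauto), if_neg hw, mul_zero]
        split_ifs <;> rfl
    rw [sum_congr rfl e2, sum_ite_eq']
    split_ifs <;> simp_all
  · by_cases hv2 : v = q
    · subst hv2
      have e2 : ∀ w ∈ W, (if x v = x w then dh * dl p v v w else 0)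
          = if w = p then (if x p = x v then dh else 0) else 0 := by
        intro w _
        by_cases hw : w = p
        · subst hw
          rw [dl_symm, dl_pq, if_pos rfl, mul_one]
          by_cases h : x v = x w
          · rw [if_pos h, if_pos h.symm]
          · rw [if_neg h, if_neg (Ne.symm h)]
        · rw [dl_zero (by tauto), if_neg hw, mul_zero]
          split_ifs <;> rfl
      rw [sum_congr rfl e2, sum_ite_eq']
      split_ifs <;> simp_all
    · rw [sum_eq_zero]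
      · exact Nat.zero_le _
      · intro w _
        rw [dl_zero_left hv hv2, mul_zero]
        split_ifs <;> rfl

theorem restore {p q : ℕ} (hq : q ∈ G.V) (hpq : p ≠ q) {dh dm : ℕ} {t s : ℕ → ℕ}
    {x : ℕ → Bool} {B : ℕ → ℕ → ℕ} (hB : IsCol (G.rem p q dh dm t s) x B)
    (hcap : ∀ v ∈ G.V, load (G.rem p q dh dm t s) x B G.V v + 1
      + (if x p = x q ∧ (v = p ∨ v = q) then dh else 0) + (if v = p then dm else 0)
        ≤ thr G (x v) v) : Colorable G := by
  refine ⟨x, fun v w => B v w + if v = p ∧ w = q then dm else 0, ?_, ?_⟩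
  · intro v hv w hw hne
    have h1 : G.m v w - dm * dl p q v w ≤ B v w + B w v := hB.cov v hv w hw hne
    have h2 : dm * dl p q v w ≤ (if v = p ∧ w = q then dm else 0)
        + if w = p ∧ v = q then dm else 0 := by
      unfold dl
      split_ifs <;> first | omega | tauto
    show G.m v w ≤ (B v w + _) + (B w v + _)
    omega
  · intro v hv
    have h1 : load G x (fun v w => B v w + if v = p ∧ w = q then dm else 0) G.V v
        = load G x B G.V v + if v = p then dm else 0 := by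
      unfold load
      have : ∀ w ∈ G.V, ((if x v = x w then G.h v w else 0)
          + (B v w + if v = p ∧ w = q then dm else 0))
          = ((if x v = x w then G.h v w else 0) + B v w)
            + (if w = q then (if v = p then dm else 0) else 0) := by
        intro w _
        by_cases h1 : v = p <;> by_cases h2 : w = q <;> simp [h1, h2] <;> omega
      rw [sum_congr rfl this, sum_add_distrib, sum_ite_eq', if_pos hq]
    have h2 := load_le_rem (G := G) hpq dh dm t s x B G.V v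
    have h3 := hcap v hv
    rw [h1]
    omega

theorem MinCE.extp_aux (M : MinCE a b G) (hab : b ≤ a) {T : Finset ℕ} (hT : T ⊆ G.V)
    {x : ℕ → Bool} {A : ℕ → ℕ → ℕ} (hcol : IsCol (G.res T) x A) {v0 r0 : ℕ} (hv0 : v0 ∈ T)
    (hsp : load G x A T v0 + 2 ≤ thr G (x v0) v0) (hr0 : r0 ∈ G.V \ T) {dh dm : ℕ}
    (h1 : dh ≤ G.h v0 r0) (h2 : dm ≤ G.m v0 r0) (h3 : dh + dm = 1) {t s : ℕ → ℕ}
    (ht : ∀ v, t v ≤ G.t v) (hs : ∀ v, s v ≤ G.s v)
    (ht' : ∀ v, v ≠ r0 → t v = G.t v) (hs' : ∀ v, v ≠ r0 → s v = G.s v)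
    (hk : ∀ k, k + 1 ≤ (if x v0 then t r0 else s r0) → k + 1 + dh ≤ thr G (x v0) r0)
    {C : ℤ} (hC : C + a ≤ (b : ℤ) * (a - 1) * dh + a * dm)
    (hcost : ∀ S : Finset ℕ, (∑ v ∈ S, (a : ℤ) * ((G.t v : ℤ) - t v))
      + (∑ v ∈ S, (b : ℤ) * ((G.s v : ℤ) - s v)) ≤ if r0 ∈ S then C else 0) :
    ∃ S ⊆ G.V \ T, S.Nonempty ∧ ((r0 ∉ S ∧ rho a b G (T ∪ S) ≤ rho a b G T - b) ∨
      (r0 ∈ S ∧ rho a b G (T ∪ S) ≤ rho a b G T - b - a)) := by
  have hr0V : r0 ∈ G.V := (mem_sdiff.1 hr0).1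
  have hr0T : r0 ∉ T := (mem_sdiff.1 hr0).2
  have hne : v0 ≠ r0 := fun h => hr0T (h ▸ hv0)
  obtain ⟨G0, hG0⟩ : ∃ G0, G0 = G.rem v0 r0 dh dm t s := ⟨_, rfl⟩
  have wf0 : G0.WF a b := by rw [hG0]; exact rem_wf M.wf ht hs
  have hV0 : G0.V = G.V := by rw [hG0]; rfl
  have hT0 : T ⊆ G0.V := by rw [hV0]; exact hT
  have hneT : ∀ v ∈ T, v ≠ r0 := fun v hv h => hr0T (h ▸ hv)
  have hcol0 : IsCol (G0.res T) x A := by
    refine IsCol.mono (G := G.res T) (G' := G0.res T) (fun _ h => h) ?_ ?_ ?_ ?_ hcol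
    · intro v _ w _
      show G0.h v w ≤ G.h v w
      rw [hG0]
      exact Nat.sub_le _ _
    · intro v _ w _
      show G0.m v w ≤ G.m v w
      rw [hG0]
      exact Nat.sub_le _ _
    · intro v hv
      show G.t v ≤ G0.t v
      rw [hG0]
      exact (ht' v (hneT v hv)).ge
    · intro v hv
      show G.s v ≤ G0.s v
      rw [hG0]
      exact (hs' v (hneT v hv)).ge
  have hn : ¬ Colorable (G0.ctr T x) := by
    rintro ⟨y, B, hy⟩
    obtain ⟨x', A', h, hx', hl⟩ := comb wf0 hT0 hcol0 hy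
    refine M.nc ?_
    rw [hV0] at hl
    subst hG0
    refine restore hr0V hne h ?_
    intro v hv
    have hcv := h.cap v hv
    have hVV : (G.rem v0 r0 dh dm t s).V = G.V := rfl
    rw [hVV] at hcv
    by_cases hvv : v = v0
    · subst hvv
      have e1 := hl v hv0
      have e2 : load (G.rem v r0 dh dm t s) x A T v ≤ load G x A T v := by
        unfold load
        refine sum_le_sum fun w _ => Nat.add_le_add_right ?_ _
        show (if x v = x w then G.h v w - dh * dl v r0 v w else 0) ≤ _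
        split_ifs
        · exact Nat.sub_le _ _
        · exact le_rfl
      rw [hx' v hv0, e1]
      split_ifs <;> omega
    · rw [if_neg hvv, add_zero]
      by_cases hvr : v = r0
      · subst hvr
        rw [hx' v0 hv0]
        by_cases hxx : x v0 = x' v
        · rw [if_pos ⟨hxx, Or.inr rfl⟩]
          rw [← hxx] at hcv ⊢
          exact hk _ hcv
        · rw [if_neg (fun hh => hxx hh.1), add_zero]
          refine hcv.trans ?_
          unfold thr
          split_ifs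
          · exact ht v
          · exact hs v
      · rw [if_neg (fun hh => by tauto), add_zero]
        refine hcv.trans ?_
        unfold thr
        split_ifs
        · exact ht v
        · exact hs v
  have hcard : #(G.V \ T) < #G.V := by
    refine card_lt_card ⟨sdiff_subset, fun h => ?_⟩
    exact (mem_sdiff.1 (h (hT hv0))).2 hv0
  obtain ⟨S, hS, hSne, hr⟩ := M.ihc (ctr_wf wf0 T x)
    (Or.inr ⟨hc_mono (by rw [hG0]; exact sdiff_subset) fun v _ w _ => by
      show G0.h v w ≤ G.h v w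
      rw [hG0]
      exact Nat.sub_le _ _, Or.inl (by
        show #(G0.V \ T) < #G.V
        rw [hV0]
        exact hcard)⟩) hn
  have hS' : S ⊆ G.V \ T := by
    have : (G0.ctr T x).V = G.V \ T := by
      show G0.V \ T = _
      rw [hV0]
    rw [this] at hS
    exact hS
  refine ⟨S, hS', hSne, ?_⟩
  have k1 := ctr_rho wf0 hT0 x (S := S) (by rw [hV0]; exact hS'.trans sdiff_subset)
  have k2 : Disjoint T S := disjoint_left.2 fun v hv hvS => (mem_sdiff.1 (hS' hvS)).2 hv
  have k3 := rho_union wf0 k2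
  have k4 : (0 : ℤ) ≤ ((a : ℤ) - b) * (n1 G0 x T S : ℤ) :=
    mul_nonneg (by have : (b : ℤ) ≤ a := by exact_mod_cast hab
                   linarith) (Int.natCast_nonneg _)
  have k5 : rho a b G0 T = rho a b G T := by
    refine rho_congr ?_ ?_ ?_ ?_
    · intro v hv w hw
      rw [hG0]
      show G.h v w - dh * dl v0 r0 v w = G.h v w
      rw [dl_zero_right (hneT v hv) (hneT w hw)]
      exact Nat.sub_zero _
    · intro v hv w hw
      rw [hG0]
      show G.m v w - dm * dl v0 r0 v w = G.m v w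
      rw [dl_zero_right (hneT v hv) (hneT w hw)]
      exact Nat.sub_zero _
    · intro v hv
      rw [hG0]
      exact ht' v (hneT v hv)
    · intro v hv
      rw [hG0]
      exact hs' v (hneT v hv)
  have k6 := rem_rho M.wf hne h1 h2 t s (T ∪ S)
  rw [← hG0] at k6
  have k7 := hcost (T ∪ S)
  have hv0u : v0 ∈ T ∪ S := mem_union_left _ hv0
  by_cases hrS : r0 ∈ S
  · right
    refine ⟨hrS, ?_⟩
    rw [if_pos (mem_union_right _ hrS)] at k7
    rw [if_pos ⟨hv0u, mem_union_right _ hrS⟩] at k6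
    linarith
  · left
    refine ⟨hrS, ?_⟩
    have hru : r0 ∉ T ∪ S := by
      rw [mem_union]
      tauto
    rw [if_neg hru] at k7
    rw [if_neg (fun h => hru h.2)] at k6
    linarith

end

end Pool.Agent.Lib.MP_4006b4_co_d
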