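import Mathlib
import Pool.Agent.Lib.MP_4006b4_co_d.Repl

/-!
# The clause lemma: small sets have no interior edge
-/

open Finset

namespace Pool.Agent.Lib.MP_4006b4_co_d

/-- `T` together with one new vertex `c` linked to the boundary. -/
def Str.cl (G : Str) (T Bd : Finset ℕ) (n : ℕ → ℕ) (c k N : ℕ) : Str where
  V := insert c T
  h := fun v w => if v = c ∨ w = c then 0 else G.h v w
  m := fun v w => if v = c then (if w ∈ Bd then n w else 0)
    else if w = c then (if v ∈ Bd then n v else 0) else G.m v w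
  t := fun v => if v = c then N - k else G.t v
  s := fun v => if v = c then k else G.s v

section

variable {a b : ℕ} {G : Str}

theorem cl_wf (wf : G.WF a b) {T Bd : Finset ℕ} (hT : T ⊆ G.V) (n : ℕ → ℕ) {c : ℕ}
    (hcB : c ∉ Bd) (k N : ℕ) : (G.cl T Bd n c k N).WF a b := by
  have hh0 : ∀ v w, (G.cl T Bd n c k N).h v w ≠ 0 → v ≠ c ∧ w ≠ c ∧ G.h v w ≠ 0 := by
    intro v w h
    have h1 : ¬ (v = c ∨ w = c) := fun hh => h (if_pos hh)
    have h2 : (G.cl T Bd n c k N).h v w = G.h v w := if_neg h1
    rw [h2] at h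
    exact ⟨fun hh => h1 (Or.inl hh), fun hh => h1 (Or.inr hh), h⟩
  refine ⟨?_, ?_, ?_, ?_, ?_, ?_, ?_⟩
  · intro v w
    show (if v = c ∨ w = c then 0 else G.h v w) = (if w = c ∨ v = c then 0 else G.h w v)
    rw [wf.hsymm v w]
    by_cases h : v = c ∨ w = c
    · rw [if_pos h, if_pos h.symm]
    · rw [if_neg h, if_neg (fun hh => h hh.symm)]
  · intro v w
    show (if v = c then (if w ∈ Bd then n w else 0)
        else if w = c then (if v ∈ Bd then n v else 0) else G.m v w)
      = (if w = c then (if v ∈ Bd then n v else 0)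
        else if v = c then (if w ∈ Bd then n w else 0) else G.m w v)
    rw [wf.msymm v w]
    by_cases h1 : v = c <;> by_cases h2 : w = c <;> simp [h1, h2]
  · intro v
    show (if v = c ∨ v = c then 0 else G.h v v) = 0
    rw [wf.hirr]
    split_ifs <;> rfl
  · intro v
    show (if v = c then (if v ∈ Bd then n v else 0)
        else if v = c then (if v ∈ Bd then n v else 0) else G.m v v) = 0
    by_cases h1 : v = c
    · rw [if_pos h1, if_neg (fun h => hcB (h1 ▸ h))]
    · rw [if_neg h1, if_neg h1, wf.mirr]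
  · intro v w
    show (if v = c ∨ w = c then 0 else G.h v w) ≤ 1
    split_ifs
    · omega
    · exact wf.hle v w
  · intro v hv w hw h
    obtain ⟨h1, h2, h3⟩ := hh0 v w h
    show (if v = c then N - k else G.t v) + 1 ≤ b
    rw [if_neg h1]
    refine wf.tb v ?_ w ?_ h3
    · exact hT ((mem_insert.1 hv).resolve_left h1)
    · exact hT ((mem_insert.1 hw).resolve_left h2)
  · intro v hv w hw h
    obtain ⟨h1, h2, h3⟩ := hh0 v w h
    show (if v = c then k else G.s v) + 1 ≤ a
    rw [if_neg h1]
    refine wf.sb v ?_ w ?_ h3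
    · exact hT ((mem_insert.1 hv).resolve_left h1)
    · exact hT ((mem_insert.1 hw).resolve_left h2)

theorem MinCE.clause (M : MinCE a b G) (P : Par a b) {T : Finset ℕ} (hT : T ⊆ G.V)
    (hne : T.Nonempty) (hTV : T ≠ G.V) (hsm : rho a b G T ≤ a)
    (hH : ∃ p ∈ G.V, ∃ q ∈ G.V, ¬ (p ∈ T ∧ q ∈ T) ∧ G.h p q ≠ 0) {n : ℕ → ℕ} {k : ℕ}
    (hk1 : 1 ≤ k) (hk2 : k ≤ 2) (hn : ∀ v ∈ bd G T, 1 ≤ n v)
    (hcl : ∀ x A, IsCol (G.res T) x A → (∑ v ∈ bd G T, if x v then n v else 0) = k) :
    ∃ S ⊆ T, bd G T ⊆ S ∧ rho a b G S ≤ ((a : ℤ) - b) * k := by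
  classical
  have hab := P.hab
  have hb2 := P.hb2
  obtain ⟨c, hcV⟩ := Infinite.exists_notMem_finset G.V
  have hcT : c ∉ T := fun h => hcV (hT h)
  have hbT : bd G T ⊆ T := fun v hv => (mem_bd.1 hv).1
  have hcB : c ∉ bd G T := fun h => hcT (hbT h)
  obtain ⟨N, hN⟩ : ∃ N, N = ∑ v ∈ bd G T, n v := ⟨_, rfl⟩
  have hsplit : ∀ x : ℕ → Bool, (∑ v ∈ bd G T, if x v then n v else 0)
      + (∑ v ∈ bd G T, if x v then 0 else n v) = N := by
    intro x
    rw [hN, ← sum_add_distrib]
    refine sum_congr rfl fun v _ => ?_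
    split_ifs <;> simp
  have hkN : k ≤ N := by
    obtain ⟨x, A, hc⟩ := M.colres hT hTV
    have h1 := hcl x A hc
    have h2 := hsplit x
    omega
  obtain ⟨C, hC⟩ : ∃ C, C = G.cl T (bd G T) n c k N := ⟨_, rfl⟩
  have hCV : C.V = insert c T := by rw [hC]; rfl
  have wfC : C.WF a b := by
    rw [hC]
    exact cl_wf M.wf hT n hcB k N
  have hChT : ∀ v ∈ T, ∀ w ∈ T, C.h v w = G.h v w := by
    intro v hv w hw
    rw [hC]
    refine if_neg ?_
    rintro (h | h)
    · exact hcT (h ▸ hv)
    · exact hcT (h ▸ hw)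
  have hCmT : ∀ v ∈ T, ∀ w ∈ T, C.m v w = G.m v w := by
    intro v hv w hw
    rw [hC]
    show (if v = c then (if w ∈ bd G T then n w else 0)
      else if w = c then (if v ∈ bd G T then n v else 0) else G.m v w) = _
    rw [if_neg (fun h : v = c => hcT (h ▸ hv)), if_neg (fun h : w = c => hcT (h ▸ hw))]
  have hCt : ∀ v ∈ T, C.t v = G.t v := by
    intro v hv
    rw [hC]
    exact if_neg (fun h : v = c => hcT (h ▸ hv))
  have hCs : ∀ v ∈ T, C.s v = G.s v := by
    intro v hv
    rw [hC]
    exact if_neg (fun h : v = c => hcT (h ▸ hv))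
  have hCtc : C.t c = N - k := by
    rw [hC]
    exact if_pos rfl
  have hCsc : C.s c = k := by
    rw [hC]
    exact if_pos rfl
  have hChc : ∀ w, C.h c w = 0 := by
    intro w
    rw [hC]
    exact if_pos (Or.inl rfl)
  have hCmc : ∀ w, C.m c w = if w ∈ bd G T then n w else 0 := by
    intro w
    rw [hC]
    exact if_pos rfl
  have hless : Less C G := by
    left
    obtain ⟨p, hp, q, hq, hpq, hh⟩ := hH
    have h1 : hc C = ∑ v ∈ T, ∑ w ∈ T, G.h v w := by
      unfold hc
      rw [hCV, sum_insert hcT, sum_eq_zero (fun w _ => hChc w), zero_add]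
      refine sum_congr rfl fun v hv => ?_
      rw [sum_insert hcT, wfC.hsymm v c, hChc, zero_add]
      exact sum_congr rfl fun w hw => hChT v hv w hw
    have h2 : ∑ v ∈ T, ∑ w ∈ T, G.h v w
        = ∑ v ∈ G.V, ∑ w ∈ G.V, if v ∈ T ∧ w ∈ T then G.h v w else 0 := by
      rw [← sum_subset hT (f := fun v => ∑ w ∈ G.V, if v ∈ T ∧ w ∈ T then G.h v w else 0)]
      · refine sum_congr rfl fun v hv => ?_
        rw [← sum_subset hT (f := fun w => if v ∈ T ∧ w ∈ T then G.h v w else 0)]
        · exact sum_congr rfl fun w hw => (if_pos ⟨hv, hw⟩).symm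
        · intro w _ hw
          exact if_neg (fun h => hw h.2)
      · intro v _ hv
        exact sum_eq_zero fun w _ => if_neg (fun h => hv h.1)
    rw [h1, h2]
    unfold hc
    have h3 : ∀ v w, (if v ∈ T ∧ w ∈ T then G.h v w else 0) ≤ G.h v w := by
      intro v w
      split_ifs
      · exact le_rfl
      · exact Nat.zero_le _
    refine sum_lt_sum (fun v _ => sum_le_sum fun w _ => h3 v w) ⟨p, hp, ?_⟩
    refine sum_lt_sum (fun w _ => h3 p w) ⟨q, hq, ?_⟩
    rw [if_neg hpq]
    omega
  have hnc : ¬ Colorable C := by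
    rintro ⟨x, A, hc⟩
    have hcT' : IsCol (G.res T) x A := by
      refine IsCol.mono (G := C) (G' := G.res T) ?_ ?_ ?_ ?_ ?_ hc
      · rw [hCV]
        exact subset_insert _ _
      · exact fun v hv w hw => (hChT v hv w hw).ge
      · exact fun v hv w hw => (hCmT v hv w hw).ge
      · exact fun v hv => (hCt v hv).le
      · exact fun v hv => (hCs v hv).le
    have hk := hcl x A hcT'
    have hA0 : ∀ v ∈ bd G T, A v c = 0 := by
      intro v hv
      have hvT := hbT hv
      have h1 := M.sat P hT hsm hcT' hv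
      have h2 := hc.cap v (by rw [hCV]; exact mem_insert_of_mem hvT)
      have h3 : load C x A C.V v = load G x A T v + A v c := by
        unfold load
        rw [hCV, sum_insert hcT, wfC.hsymm v c, hChc]
        have : ∑ w ∈ T, ((if x v = x w then C.h v w else 0) + A v w)
            = ∑ w ∈ T, ((if x v = x w then G.h v w else 0) + A v w) :=
          sum_congr rfl fun w hw => by rw [hChT v hvT w hw]
        rw [this]
        split_ifs <;> omega
      have h4 : thr C (x v) v = thr G (x v) v := by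
        unfold thr
        rw [hCt v hvT, hCs v hvT]
      rw [h3, h4] at h2
      omega
    have h5 := hc.cap c (by rw [hCV]; exact mem_insert_self _ _)
    have h6 : (∑ v ∈ bd G T, if x c = x v then 0 else n v) ≤ load C x A C.V c := by
      unfold load
      calc (∑ v ∈ bd G T, if x c = x v then 0 else n v) ≤ ∑ v ∈ bd G T, A c v := by
            refine sum_le_sum fun v hv => ?_
            split_ifs with h
            · exact Nat.zero_le _
            · have h7 := hc.cov c (by rw [hCV]; exact mem_insert_self _ _) v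
                (by rw [hCV]; exact mem_insert_of_mem (hbT hv)) h
              rw [hCmc, if_pos hv, hA0 v hv] at h7
              omega
        _ ≤ ∑ v ∈ bd G T, ((if x c = x v then C.h c v else 0) + A c v) :=
            sum_le_sum fun v _ => Nat.le_add_left _ _
        _ ≤ _ := sum_le_sum_of_subset (by
            rw [hCV]
            exact hbT.trans (subset_insert _ _))
    have h8 := hsplit x
    cases hxc : x c
    · rw [hxc, thr_false, hCsc] at h5
      have h9 : (∑ v ∈ bd G T, if x c = x v then 0 else n v)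
          = ∑ v ∈ bd G T, if x v then n v else 0 := by
        refine sum_congr rfl fun v _ => ?_
        rw [hxc]
        cases x v <;> simp
      omega
    · rw [hxc, thr_true, hCtc] at h5
      have h9 : (∑ v ∈ bd G T, if x c = x v then 0 else n v)
          = ∑ v ∈ bd G T, if x v then 0 else n v := by
        refine sum_congr rfl fun v _ => ?_
        rw [hxc]
        cases x v <;> simp
      omega
  obtain ⟨S', hS', hSne', hr'⟩ := M.ihc wfC hless hnc
  rw [hCV] at hS'
  have hcongr : ∀ S ⊆ T, rho a b C S = rho a b G S := by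
    intro S hS
    exact rho_congr (fun v hv w hw => hChT v (hS hv) w (hS hw))
      (fun v hv w hw => hCmT v (hS hv) w (hS hw)) (fun v hv => hCt v (hS hv))
      (fun v hv => hCs v (hS hv))
  have hcS : c ∈ S' := by
    by_contra hcS
    have h1 : S' ⊆ T := fun v hv => (mem_insert.1 (hS' hv)).resolve_left (fun h => hcS (h ▸ hv))
    rw [hcongr S' h1] at hr'
    have := M.pos S' (h1.trans hT) hSne'
    linarith
  obtain ⟨S, hSd⟩ : ∃ S, S = S'.erase c := ⟨_, rfl⟩
  have hST : S ⊆ T := by
    intro v hv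
    rw [hSd] at hv
    exact (mem_insert.1 (hS' (mem_of_mem_erase hv))).resolve_left (ne_of_mem_erase hv)
  have hcS2 : c ∉ S := by
    rw [hSd]
    exact notMem_erase _ _
  have hS'e : S' = insert c S := by rw [hSd, insert_erase hcS]
  rw [hS'e, rho_insert wfC hcS2, hcongr S hST] at hr'
  have hwt : ∑ w ∈ S, wt a b C c w = a * (∑ w ∈ S, if w ∈ bd G T then (n w : ℤ) else 0) := by
    rw [mul_sum]
    refine sum_congr rfl fun w _ => ?_
    unfold wt
    rw [hChc, hCmc]
    push_cast
    ring
  have hrc : rv a b C c = a * ((N : ℤ) - k) + b * k - b := by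
    unfold rv
    rw [hCtc, hCsc]
    push_cast [hkN]
    ring
  rw [hwt, hrc] at hr'
  have hNz : (N : ℤ) = ∑ v ∈ bd G T, (n v : ℤ) := by
    rw [hN]
    push_cast
    rfl
  have hfilter : (∑ w ∈ S, if w ∈ bd G T then (n w : ℤ) else 0)
      = ∑ w ∈ bd G T, if w ∈ S then (n w : ℤ) else 0 := by
    rw [← sum_filter, ← sum_filter]
    congr 1
    ext w
    rw [mem_filter, mem_filter]
    tauto
  have hk1' : (1 : ℤ) ≤ k := by exact_mod_cast hk1
  have hk2' : (k : ℤ) ≤ 2 := by exact_mod_cast hk2
  have hkN' : (k : ℤ) ≤ N := by exact_mod_cast hkN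
  refine ⟨S, hST, ?_, ?_⟩
  · by_contra hnot
    obtain ⟨v, hv, hvS⟩ := not_subset.1 hnot
    have h1 : (∑ w ∈ bd G T, if w ∈ S then (n w : ℤ) else 0) ≤ N - 1 := by
      have h2 : (∑ w ∈ bd G T, if w ∈ S then (n w : ℤ) else 0) + n v ≤ N := by
        rw [hNz, ← add_sum_erase _ _ hv, ← add_sum_erase (bd G T) (fun w => (n w : ℤ)) hv,
          if_neg hvS]
        have : ∑ w ∈ (bd G T).erase v, (if w ∈ S then (n w : ℤ) else 0)
            ≤ ∑ w ∈ (bd G T).erase v, (n w : ℤ) := by
          refine sum_le_sum fun w _ => ?_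
          split_ifs
          · exact le_rfl
          · exact Int.natCast_nonneg _
        linarith
      have h3 : (1 : ℤ) ≤ n v := by exact_mod_cast hn v hv
      linarith
    rw [hfilter] at hr'
    rcases S.eq_empty_or_nonempty with hS0 | hSne
    · have h4 : (∑ w ∈ bd G T, if w ∈ S then (n w : ℤ) else 0) = 0 := by
        refine sum_eq_zero fun w _ => if_neg ?_
        rw [hS0]
        exact notMem_empty _
      rw [h4, hS0, rho_empty] at hr'
      nlinarith
    · have h5 := M.p1' P (hST.trans hT) hSne (fun h => hTV (Subset.antisymm hT (h ▸ hST)))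
      nlinarith
  · have h1 : (∑ w ∈ bd G T, if w ∈ S then (n w : ℤ) else 0) ≤ N := by
      rw [hNz]
      refine sum_le_sum fun w _ => ?_
      split_ifs
      · exact le_rfl
      · exact Int.natCast_nonneg _
    rw [hfilter] at hr'
    nlinarith

/-- Number of first-part boundary vertices. -/
theorem card_le_n1 {T S : Finset ℕ} (hS : S ⊆ T) (hb : bd G T ⊆ S) (x : ℕ → Bool) :
    #((bd G T).filter (fun v => x v = true)) ≤ n1 G x S (G.V \ S) := by
  classical
  unfold n1
  rw [card_eq_sum_ones, sum_filter]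
  refine le_trans ?_ (sum_le_sum_of_subset hb)
  refine sum_le_sum fun v hv => ?_
  split_ifs with hx
  · obtain ⟨_, r, hr, hadj⟩ := mem_bd.1 hv
    have hr' : r ∈ G.V \ S := by
      rw [mem_sdiff] at hr ⊢
      exact ⟨hr.1, fun h => hr.2 (hS h)⟩
    have h1 : G.h v r + G.m v r ≤ ∑ w ∈ G.V \ S, (G.h v w + G.m v w) :=
      single_le_sum (f := fun w => G.h v w + G.m v w) (fun _ _ => Nat.zero_le _) hr'
    omega
  · exact Nat.zero_le _

/-- Small sets contain no edge if some edge is not inside them. -/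
theorem MinCE.anti (M : MinCE a b G) (P : Par a b) {T : Finset ℕ} (hT : T ⊆ G.V)
    (hne : T.Nonempty) (hTV : T ≠ G.V) (hsm : rho a b G T ≤ a)
    (hH : ∃ p ∈ G.V, ∃ q ∈ G.V, ¬ (p ∈ T ∧ q ∈ T) ∧ G.h p q ≠ 0) :
    ∀ p ∈ T, ∀ q ∈ T, G.h p q = 0 := by
  classical
  by_contra hcon
  push Not at hcon
  have hab := P.hab
  have hb2 := P.hb2
  have hhk := P.hhk
  have hrV := M.rhoV
  -- number of first-part boundary vertices
  let F : (ℕ → Bool) → Finset ℕ := fun x => (bd G T).filter (fun v => x v = true)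
  have memF : ∀ x v, v ∈ F x ↔ v ∈ bd G T ∧ x v = true := by
    intro x v
    simp [F]
  obtain ⟨v0, hv0⟩ := M.bd_ne P hT hne hTV
  have hanti : ∀ x A x' A', IsCol (G.res T) x A → IsCol (G.res T) x' A' →
      F x ⊆ F x' → F x' ⊆ F x := by
    intro x A x' A' h1 h2 hsub v hv
    rw [memF] at hv ⊢
    refine ⟨hv.1, M.repl P hT hsm hcon h1 h2 ?_ hv.1 hv.2⟩
    intro w hw hxw
    exact ((memF x' w).1 (hsub ((memF x w).2 ⟨hw, hxw⟩))).2
  have hFne : ∀ x A, IsCol (G.res T) x A → (F x).Nonempty := by
    intro x A hc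
    by_contra h
    rw [not_nonempty_iff_eq_empty] at h
    obtain ⟨x', A', hc', hx'⟩ := M.both P hT hTV hsm hv0 true
    have h1 := hanti x A x' A' hc hc' (by rw [h]; exact empty_subset _)
    rw [h] at h1
    have := h1 ((memF x' v0).2 ⟨hv0, hx'⟩)
    exact absurd this (notMem_empty _)
  have hF2 : ∀ x A, IsCol (G.res T) x A → #(F x) ≤ 2 := by
    intro x A hc
    have h1 := M.n1le P hT hne hsm hc
    have h2 : #(F x) ≤ _ := card_le_n1 (G := G) (Subset.refl T) (fun v hv => (mem_bd.1 hv).1) x
    by_contra h3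
    have h4 : (3 : ℤ) ≤ (n1 G x T (G.V \ T) : ℤ) := by
      have : 3 ≤ n1 G x T (G.V \ T) := le_trans (by omega) h2
      exact_mod_cast this
    nlinarith
  -- all colourings have exactly one first-part boundary vertex
  have hF1 : ∀ x A, IsCol (G.res T) x A → #(F x) ≤ 1 := by
    by_cases h2J : 2 * ((a : ℤ) - b) ≤ a
    · let n : ℕ → ℕ := fun v => if ∃ x A, IsCol (G.res T) x A ∧ F x = {v} then 2 else 1
      have hn1 : ∀ v ∈ bd G T, 1 ≤ n v := by
        intro v _
        show 1 ≤ (if _ then 2 else 1)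
        split_ifs <;> omega
      have hsum : ∀ x A, IsCol (G.res T) x A →
          (∑ v ∈ bd G T, if x v then n v else 0) = 2 := by
        intro x A hc
        have e1 : (∑ v ∈ bd G T, if x v then n v else 0) = ∑ v ∈ F x, n v := by
          rw [sum_filter]
        rw [e1]
        have h1 : 1 ≤ #(F x) := card_pos.2 (hFne x A hc)
        have h2 := hF2 x A hc
        have h3 : #(F x) = 1 ∨ #(F x) = 2 := by omega
        rcases h3 with h3 | h3
        · obtain ⟨v, hv⟩ := card_eq_one.1 h3
          rw [hv, sum_singleton]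
          exact if_pos ⟨x, A, hc, hv⟩
        · obtain ⟨v, w, hvw, hF⟩ := card_eq_two.1 h3
          have key : ∀ u ∈ F x, n u = 1 := by
            intro u hu
            refine if_neg ?_
            rintro ⟨x', A', hc', hx'⟩
            have h4 := hanti x' A' x A hc' hc (by rw [hx']; exact singleton_subset_iff.2 hu)
            rw [hx'] at h4
            have := card_le_card h4
            rw [h3, card_singleton] at this
            omega
          rw [sum_congr rfl key, ← card_eq_sum_ones, h3]
      obtain ⟨S, hST, hbS, hrS⟩ := M.clause P hT hne hTV hsm hH (by omega) le_rfl hn1 hsum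
      intro x A hc
      have hSV : S ≠ G.V := fun h => hTV (Subset.antisymm hT (h ▸ hST))
      have hSne : S.Nonempty := ⟨v0, hbS hv0⟩
      have hcS : IsCol (G.res S) x A := IsCol.mono (G := G.res T) (G' := G.res S) hST
        (fun _ _ _ _ => le_rfl) (fun _ _ _ _ => le_rfl) (fun _ _ => le_rfl)
        (fun _ _ => le_rfl) hc
      have h1 := M.n1le P (hST.trans hT) hSne (by push_cast at hrS; linarith) hcS
      have h2 : #(F x) ≤ _ := card_le_n1 (G := G) hST hbS x
      by_contra h3
      have h4 : (2 : ℤ) ≤ (n1 G x S (G.V \ S) : ℤ) := by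
        have : 2 ≤ n1 G x S (G.V \ S) := le_trans (by omega) h2
        exact_mod_cast this
      push_cast at hrS
      nlinarith
    · intro x A hc
      have h1 := M.n1le P hT hne hsm hc
      have h2 : #(F x) ≤ _ := card_le_n1 (G := G) (Subset.refl T) (fun v hv => (mem_bd.1 hv).1) x
      by_contra h3
      have h4 : (2 : ℤ) ≤ (n1 G x T (G.V \ T) : ℤ) := by
        have : 2 ≤ n1 G x T (G.V \ T) := le_trans (by omega) h2
        exact_mod_cast this
      nlinarith
  obtain ⟨S, hST, hbS, hrS⟩ := M.clause P hT hne hTV hsm hH (n := fun _ => 1) (k := 1) le_rfl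
    (by omega) (fun _ _ => le_rfl) (by
      intro x A hc
      have e1 : (∑ v ∈ bd G T, if x v then 1 else 0) = ∑ v ∈ F x, 1 := by
        rw [sum_filter]
      rw [e1, ← card_eq_sum_ones]
      have h1 : 1 ≤ #(F x) := card_pos.2 (hFne x A hc)
      have h2 := hF1 x A hc
      omega)
  have hSV : S ≠ G.V := fun h => hTV (Subset.antisymm hT (h ▸ hST))
  have h1 := M.p1' P (hST.trans hT) ⟨v0, hbS hv0⟩ hSV
  push_cast at hrS
  linarith

end

end Pool.Agent.Lib.MP_4006b4_co_d
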