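import Mathlib
import Pool.Agent.Lib.MP_4006b4_co_d.Clause

/-!
# No set of small potential separates an edge
-/

open Finset

namespace Pool.Agent.Lib.MP_4006b4_co_d

section

variable {a b : ℕ} {G : Str}

theorem mono_col {T : Finset ℕ} (h0 : ∀ p ∈ T, ∀ q ∈ T, G.h p q = 0) (c : Bool)
    (hc : ∀ v ∈ T, 1 ≤ thr G c v) : IsCol (G.res T) (fun _ => c) (fun _ _ => 0) := by
  refine ⟨fun _ _ _ _ h => absurd rfl h, ?_⟩
  intro v hv
  have hv' : v ∈ T := hv
  have h1 : load (G.res T) (fun _ => c) (fun _ _ => 0) (G.res T).V v = 0 := by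
    unfold load
    refine sum_eq_zero fun w hw => ?_
    have : (G.res T).h v w = 0 := h0 v hv' w hw
    rw [this]
    simp
  rw [h1]
  exact hc v hv'

/-- No proper set of potential at most `a` separates an edge. -/
theorem MinCE.nosep (M : MinCE a b G) (P : Par a b) {T : Finset ℕ} (hT : T ⊆ G.V) {u w : ℕ}
    (hu : u ∈ T) (hw : w ∈ G.V) (hwT : w ∉ T) (hh : G.h u w ≠ 0) :
    (a : ℤ) + 1 ≤ rho a b G T := by
  classical
  by_contra hcon
  push Not at hcon
  have hsm : rho a b G T ≤ a := by linarith
  have hTV : T ≠ G.V := fun h => hwT (h ▸ hw)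
  have huV := hT hu
  have huw : u ≠ w := fun h => hwT (h ▸ hu)
  have h0 := M.anti P hT ⟨u, hu⟩ hTV hsm ⟨u, huV, w, hw, fun h => hwT h.2, hh⟩
  have hub : u ∈ bd G T := mem_bd.2 ⟨hu, w, mem_sdiff.2 ⟨hw, hwT⟩, by omega⟩
  have hload0 : ∀ c : Bool, load G (fun _ => c) (fun _ _ => 0) T u = 0 := by
    intro c
    unfold load
    refine sum_eq_zero fun w hw => ?_
    rw [h0 u hu w hw]
    simp
  have ht : G.t u = 1 := by
    have h1 := M.sat P hT hsm (mono_col h0 true fun v hv => M.tpos P (hT hv)) hub
    rw [hload0, thr_true] at h1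
    omega
  have hs : G.s u = 1 := by
    have h1 := M.sat P hT hsm (mono_col h0 false fun v hv => M.spos P (hT hv)) hub
    rw [hload0, thr_false] at h1
    omega
  -- the degree of `u` is one
  have h0' : ∀ p ∈ ({u} : Finset ℕ), ∀ q ∈ ({u} : Finset ℕ), G.h p q = 0 := by
    intro p hp q hq
    rw [mem_singleton] at hp hq
    rw [hp, hq, M.wf.hirr]
  have hn := M.n1le P (singleton_subset_iff.2 huV) (singleton_nonempty u) (by
      rw [rho_singleton]
      unfold rv
      rw [ht, hs]
      push_cast
      linarith)
    (mono_col h0' true fun v hv => M.tpos P (by rw [mem_singleton] at hv; rwa [hv]))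
  have hrho : rho a b G {u} = a := by
    rw [rho_singleton]
    unfold rv
    rw [ht, hs]
    push_cast
    ring
  rw [hrho] at hn
  have hV := M.rhoV
  have hJ := P.hJ
  have hb2 := P.hb2
  obtain ⟨n, hnd⟩ : ∃ n, n = n1 G (fun _ => true) {u} (G.V \ {u}) := ⟨_, rfl⟩
  rw [← hnd] at hn
  have hn1 : n ≤ 1 := by
    by_contra h
    have h2 : (2 : ℤ) ≤ n := by
      have : 2 ≤ n := by omega
      exact_mod_cast this
    nlinarith
  have hsum : n = ∑ r ∈ G.V \ {u}, (G.h u r + G.m u r) := by
    rw [hnd]
    unfold n1
    rw [sum_singleton]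
    rfl
  have hwV : w ∈ G.V \ {u} := by
    rw [mem_sdiff, mem_singleton]
    exact ⟨hw, huw.symm⟩
  have hall : ∀ r ∈ G.V, r ≠ u → G.m u r = 0 ∧ (r ≠ w → G.h u r = 0) := by
    intro r hr hru
    have hrV : r ∈ G.V \ {u} := by
      rw [mem_sdiff, mem_singleton]
      exact ⟨hr, hru⟩
    by_cases hrw : r = w
    · subst hrw
      have h1 : G.h u r + G.m u r ≤ n := by
        rw [hsum]
        exact single_le_sum (f := fun r => G.h u r + G.m u r) (fun _ _ => Nat.zero_le _) hrV
      exact ⟨by omega, fun h => absurd rfl h⟩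
    · have h1 : (G.h u r + G.m u r) + (G.h u w + G.m u w) ≤ n := by
        rw [hsum, ← add_sum_erase _ _ hrV]
        have h2 : w ∈ (G.V \ {u}).erase r := mem_erase.2 ⟨fun h => hrw h.symm, hwV⟩
        have h3 := single_le_sum (f := fun r => G.h u r + G.m u r) (fun _ _ => Nat.zero_le _) h2
        exact Nat.add_le_add_left h3 _
      exact ⟨by omega, fun _ => by omega⟩
  -- colour the rest
  obtain ⟨y, B, hy⟩ := M.colres (T := G.V \ {u}) sdiff_subset (fun h => by
    have : u ∈ G.V \ {u} := by rw [h]; exact huV
    exact (mem_sdiff.1 this).2 (mem_singleton_self u))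
  let x : ℕ → Bool := fun v => if v = u then !(y w) else y v
  let A : ℕ → ℕ → ℕ := fun v r => if v = u ∨ r = u then 0 else B v r
  have hxu : x u = !(y w) := if_pos rfl
  have hxn : ∀ v, v ≠ u → x v = y v := fun v hv => if_neg hv
  refine M.nc ⟨x, A, ?_, ?_⟩
  · intro v hv r hr hne
    by_cases hvu : v = u
    · subst hvu
      by_cases hrv : r = v
      · subst hrv
        exact absurd rfl hne
      · rw [(hall r hr hrv).1]
        exact Nat.zero_le _
    · by_cases hru : r = u
      · subst hru
        rw [M.wf.msymm, (hall v hv hvu).1]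
        exact Nat.zero_le _
      · have e1 : A v r = B v r := if_neg (fun h => h.elim hvu hru)
        have e2 : A r v = B r v := if_neg (fun h => h.elim hru hvu)
        rw [e1, e2]
        rw [hxn v hvu, hxn r hru] at hne
        refine hy.cov v ?_ r ?_ hne
        · show v ∈ G.V \ {u}
          rw [mem_sdiff, mem_singleton]
          exact ⟨hv, hvu⟩
        · show r ∈ G.V \ {u}
          rw [mem_sdiff, mem_singleton]
          exact ⟨hr, hru⟩
  · intro v hv
    have hsplit : load G x A G.V v = (∑ r ∈ G.V \ {u}, ((if x v = x r then G.h v r else 0) + A v r))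
        + ((if x v = x u then G.h v u else 0) + A v u) := by
      unfold load
      rw [← sum_sdiff (singleton_subset_iff.2 huV), sum_singleton]
    by_cases hvu : v = u
    · subst hvu
      have e1 : load G x A G.V v = 0 := by
        unfold load
        refine sum_eq_zero fun r hr => ?_
        have e2 : A v r = 0 := if_pos (Or.inl rfl)
        rw [e2, add_zero]
        by_cases hrv : r = v
        · rw [hrv, M.wf.hirr]
          split_ifs <;> rfl
        · by_cases hrw : r = w
          · rw [if_neg]
            rw [hxu, hxn r hrv, hrw]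
            cases y w <;> simp
          · rw [(hall r hr hrv).2 hrw]
            split_ifs <;> rfl
      rw [e1]
      unfold thr
      split_ifs
      · omega
      · omega
    · have e0 : (if x v = x u then G.h v u else 0) + A v u = 0 := by
        have e2 : A v u = 0 := if_pos (Or.inr rfl)
        rw [e2, add_zero]
        by_cases hvw : v = w
        · rw [if_neg]
          rw [hxu, hxn v hvu, hvw]
          cases y w <;> simp
        · rw [M.wf.hsymm, (hall v hv hvu).2 hvw]
          split_ifs <;> rfl
      rw [hsplit, e0, add_zero, hxn v hvu]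
      have hvV : v ∈ (G.res (G.V \ {u})).V := by
        show v ∈ G.V \ {u}
        rw [mem_sdiff, mem_singleton]
        exact ⟨hv, hvu⟩
      have h1 := hy.cap v hvV
      refine le_trans (le_of_eq ?_) h1
      congr 1
      refine sum_congr rfl fun r hr => ?_
      have hru : r ≠ u := by
        have : r ∈ G.V \ {u} := hr
        rw [mem_sdiff, mem_singleton] at this
        exact this.2
      have e3 : A v r = B v r := if_neg (fun h => h.elim hvu hru)
      rw [e3, hxn r hru]
      rfl

end

end Pool.Agent.Lib.MP_4006b4_co_d
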