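import Mathlib
import Pool.Agent.Lib.MP_4006b4_co_d.NoSep

/-!
# The extension lemma with several spare units at one vertex
-/

open Finset

namespace Pool.Agent.Lib.MP_4006b4_co_d

/-- Remove `fh r` edges and `fm r` links between `v0` and `r`, lower one threshold of `r` by
`fh r`. -/
def Str.spr (G : Str) (v0 : ℕ) (c : Bool) (fh fm : ℕ → ℕ) : Str where
  V := G.V
  h := fun v w => G.h v w - (if v = v0 then fh w else if w = v0 then fh v else 0)
  m := fun v w => G.m v w - (if v = v0 then fm w else if w = v0 then fm v else 0)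
  t := fun v => if c then G.t v - fh v else G.t v
  s := fun v => if c then G.s v else G.s v - fh v

section

variable {a b : ℕ} {G : Str}

theorem spr_t_le (v0 : ℕ) (c : Bool) (fh fm : ℕ → ℕ) (v : ℕ) :
    (G.spr v0 c fh fm).t v ≤ G.t v := by
  show (if c then G.t v - fh v else G.t v) ≤ _
  split_ifs
  · exact Nat.sub_le _ _
  · exact le_rfl

theorem spr_s_le (v0 : ℕ) (c : Bool) (fh fm : ℕ → ℕ) (v : ℕ) :
    (G.spr v0 c fh fm).s v ≤ G.s v := by
  show (if c then G.s v else G.s v - fh v) ≤ _
  split_ifs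
  · exact le_rfl
  · exact Nat.sub_le _ _

theorem spr_wf (wf : G.WF a b) {v0 : ℕ} (c : Bool) {fh fm : ℕ → ℕ} (h0 : fh v0 = 0)
    (m0 : fm v0 = 0) : (G.spr v0 c fh fm).WF a b where
  hsymm := fun v w => by
    show G.h v w - (if v = v0 then fh w else if w = v0 then fh v else 0)
      = G.h w v - (if w = v0 then fh v else if v = v0 then fh w else 0)
    rw [wf.hsymm v w]
    by_cases h1 : v = v0
    · by_cases h2 : w = v0
      · rw [if_pos h1, if_pos h2, h1, h2]
      · rw [if_pos h1, if_neg h2, if_pos h1]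
    · by_cases h2 : w = v0
      · rw [if_neg h1, if_pos h2, if_pos h2]
      · rw [if_neg h1, if_neg h2, if_neg h2, if_neg h1]
  msymm := fun v w => by
    show G.m v w - (if v = v0 then fm w else if w = v0 then fm v else 0)
      = G.m w v - (if w = v0 then fm v else if v = v0 then fm w else 0)
    rw [wf.msymm v w]
    by_cases h1 : v = v0
    · by_cases h2 : w = v0
      · rw [if_pos h1, if_pos h2, h1, h2]
      · rw [if_pos h1, if_neg h2, if_pos h1]
    · by_cases h2 : w = v0
      · rw [if_neg h1, if_pos h2, if_pos h2]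
      · rw [if_neg h1, if_neg h2, if_neg h2, if_neg h1]
  hirr := fun v => by
    show G.h v v - _ = 0
    rw [wf.hirr v]
    exact Nat.zero_sub _
  mirr := fun v => by
    show G.m v v - _ = 0
    rw [wf.mirr v]
    exact Nat.zero_sub _
  hle := fun v w => (Nat.sub_le _ _).trans (wf.hle v w)
  tb := fun v hv w hw h => (Nat.add_le_add_right (spr_t_le v0 c fh fm v) 1).trans
    (wf.tb v hv w hw (fun h0 => h (by
      show G.h v w - _ = 0
      rw [h0]
      exact Nat.zero_sub _)))
  sb := fun v hv w hw h => (Nat.add_le_add_right (spr_s_le v0 c fh fm v) 1).trans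
    (wf.sb v hv w hw (fun h0 => h (by
      show G.h v w - _ = 0
      rw [h0]
      exact Nat.zero_sub _)))

theorem spr_col {v0 : ℕ} (hv0 : v0 ∈ G.V) {fh fm : ℕ → ℕ}
    {x : ℕ → Bool} {A : ℕ → ℕ → ℕ} (h : IsCol (G.spr v0 (x v0) fh fm) x A)
    (hsp : load (G.spr v0 (x v0) fh fm) x A G.V v0 + 1 + ∑ r ∈ G.V, (fh r + fm r)
      ≤ thr G (x v0) v0) : Colorable G := by
  classical
  obtain ⟨G0, hG0⟩ : ∃ G0, G0 = G.spr v0 (x v0) fh fm := ⟨_, rfl⟩
  have hh : ∀ v w, G.h v w ≤ G0.h v w + (if v = v0 then fh w else if w = v0 then fh v else 0) := by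
    intro v w
    rw [hG0]
    show _ ≤ G.h v w - (if v = v0 then fh w else if w = v0 then fh v else 0) + _
    omega
  have hm : ∀ v w, G.m v w ≤ G0.m v w + (if v = v0 then fm w else if w = v0 then fm v else 0) := by
    intro v w
    rw [hG0]
    show _ ≤ G.m v w - (if v = v0 then fm w else if w = v0 then fm v else 0) + _
    omega
  have hVV : G0.V = G.V := by rw [hG0]; rfl
  rw [← hG0] at h hsp
  refine ⟨x, fun v w => A v w + if v = v0 then fm w else 0, ?_, ?_⟩
  · intro v hv w hw hne
    have h1 := h.cov v (by rw [hVV]; exact hv) w (by rw [hVV]; exact hw) hne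
    have h2 := hm v w
    show G.m v w ≤ (A v w + _) + (A w v + _)
    split_ifs at h2 ⊢ <;> omega
  · intro v hv
    have h1 := h.cap v (by rw [hVV]; exact hv)
    rw [hVV] at h1
    by_cases hvv : v = v0
    · subst hvv
      have e1 : load G x (fun u w => A u w + if u = v then fm w else 0) G.V v
          ≤ load G0 x A G.V v + ∑ r ∈ G.V, (fh r + fm r) := by
        unfold load
        rw [← sum_add_distrib]
        refine sum_le_sum fun w _ => ?_
        have := hh v w
        rw [if_pos rfl] at this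
        simp only [if_true]
        split_ifs <;> omega
      omega
    · have e1 : load G x (fun u w => A u w + if u = v0 then fm w else 0) G.V v
          ≤ load G0 x A G.V v + (if x v = x v0 then fh v else 0) := by
        have e2 : load G x (fun u w => A u w + if u = v0 then fm w else 0) G.V v
            ≤ load G0 x A G.V v + ∑ w ∈ G.V, (if w = v0 then (if x v = x v0 then fh v else 0)
              else 0) := by
          unfold load
          rw [← sum_add_distrib]
          refine sum_le_sum fun w _ => ?_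
          have := hh v w
          rw [if_neg hvv] at this
          simp only [if_neg hvv]
          by_cases hw : w = v0
          · subst hw
            rw [if_pos rfl] at this
            rw [if_pos rfl]
            split_ifs <;> omega
          · rw [if_neg hw] at this
            rw [if_neg hw]
            split_ifs <;> omega
        refine e2.trans (le_of_eq ?_)
        rw [sum_ite_eq', if_pos hv0]
      by_cases hx : x v = x v0
      · rw [if_pos hx] at e1
        have e3 : thr G0 (x v) v = thr G (x v) v - fh v := by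
          rw [hG0, hx]
          unfold thr
          cases x v0
          · rfl
          · rfl
        rw [e3] at h1
        omega
      · rw [if_neg hx] at e1
        have e3 : thr G0 (x v) v ≤ thr G (x v) v := by
          rw [hG0]
          unfold thr
          split_ifs
          · exact spr_t_le _ _ _ _ _
          · exact spr_s_le _ _ _ _ _
        omega

/-- Savings of a spared edge, beyond the `n1` term. -/
def gH (a b : ℕ) (c : Bool) : ℤ := if c then (a : ℤ) * (b - 2) else (b : ℤ) * (a - 2)

/-- Savings of a spared link, beyond the `n1` term. -/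
def gM (a b : ℕ) (c : Bool) : ℤ := if c then (b : ℤ) else a

theorem MinCE.extv (M : MinCE a b G) {T : Finset ℕ} (hT : T ⊆ G.V)
    {x : ℕ → Bool} {A : ℕ → ℕ → ℕ} (hcol : IsCol (G.res T) x A) {v0 : ℕ} (hv0 : v0 ∈ T)
    {fh fm : ℕ → ℕ} (hfh : ∀ r, fh r ≤ G.h v0 r) (hfm : ∀ r, fm r ≤ G.m v0 r)
    (hfT : ∀ r ∈ T, fh r = 0 ∧ fm r = 0)
    (hsp : load G x A T v0 + 1 + ∑ r ∈ G.V, (fh r + fm r) ≤ thr G (x v0) v0) :
    ∃ S ⊆ G.V \ T, S.Nonempty ∧
      rho a b G (T ∪ S) + ((a : ℤ) - b) * (n1 G x T S : ℤ)
        + ∑ r ∈ S, (gH a b (x v0) * (fh r : ℤ) + gM a b (x v0) * (fm r : ℤ))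
        ≤ rho a b G T - b := by
  classical
  have hv0V := hT hv0
  obtain ⟨G0, hG0⟩ : ∃ G0, G0 = G.spr v0 (x v0) fh fm := ⟨_, rfl⟩
  have wf0 : G0.WF a b := by rw [hG0]; exact spr_wf M.wf _ (hfT v0 hv0).1 (hfT v0 hv0).2
  have hV0 : G0.V = G.V := by rw [hG0]; rfl
  have hT0 : T ⊆ G0.V := by rw [hV0]; exact hT
  have hhle : ∀ v w, G0.h v w ≤ G.h v w := by
    intro v w
    rw [hG0]
    exact Nat.sub_le _ _
  have hmle : ∀ v w, G0.m v w ≤ G.m v w := by
    intro v w
    rw [hG0]
    exact Nat.sub_le _ _
  have htT : ∀ v ∈ T, G0.t v = G.t v := by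
    intro v hv
    rw [hG0]
    show (if x v0 then G.t v - fh v else G.t v) = _
    rw [(hfT v hv).1]
    split_ifs <;> rfl
  have hsT : ∀ v ∈ T, G0.s v = G.s v := by
    intro v hv
    rw [hG0]
    show (if x v0 then G.s v else G.s v - fh v) = _
    rw [(hfT v hv).1]
    split_ifs <;> rfl
  have hcol0 : IsCol (G0.res T) x A :=
    IsCol.mono (G := G.res T) (G' := G0.res T) (fun _ h => h) (fun v _ w _ => hhle v w)
      (fun v _ w _ => hmle v w) (fun v hv => (htT v hv).ge) (fun v hv => (hsT v hv).ge) hcol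
  have hn : ¬ Colorable (G0.ctr T x) := by
    rintro ⟨y, B, hy⟩
    obtain ⟨x', A', h, hx', hl⟩ := comb wf0 hT0 hcol0 hy
    have hx0 := hx' v0 hv0
    refine M.nc (spr_col (x := x') (A := A') hv0V (fh := fh) (fm := fm) ?_ ?_)
    · rw [hx0, ← hG0]
      exact h
    · rw [hx0, ← hG0]
      have h1 := hl v0 hv0
      rw [hV0] at h1
      rw [h1]
      have h2 : load G0 x A T v0 ≤ load G x A T v0 := by
        unfold load
        refine sum_le_sum fun w _ => Nat.add_le_add_right ?_ _
        split_ifs
        · exact hhle _ _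
        · exact le_rfl
      omega
  have hcard : #(G.V \ T) < #G.V := by
    refine card_lt_card ⟨sdiff_subset, fun h => ?_⟩
    exact (mem_sdiff.1 (h hv0V)).2 hv0
  obtain ⟨S, hS, hSne, hr⟩ := M.ihc (ctr_wf wf0 T x)
    (Or.inr ⟨hc_mono (by rw [← hV0]; exact sdiff_subset) fun v _ w _ => hhle v w,
      Or.inl (by
        show #(G0.V \ T) < #G.V
        rw [hV0]
        exact hcard)⟩) hn
  have hS' : S ⊆ G.V \ T := by
    have : (G0.ctr T x).V = G.V \ T := by
      show G0.V \ T = _
      rw [hV0]
    rw [this] at hS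
    exact hS
  refine ⟨S, hS', hSne, ?_⟩
  have k1 := ctr_rho wf0 hT0 x (S := S) (by rw [hV0]; exact hS'.trans sdiff_subset)
  have k2 : Disjoint T S := disjoint_left.2 fun v hv hvS => (mem_sdiff.1 (hS' hvS)).2 hv
  have k3 := rho_union (a := a) (b := b) M.wf k2
  have hv0S : v0 ∉ S := fun h => (mem_sdiff.1 (hS' h)).2 hv0
  -- potential of `S` in `G0`
  obtain ⟨c, hc⟩ : ∃ c : ℤ, c = if x v0 then (a : ℤ) else b := ⟨_, rfl⟩
  have k4 : rho a b G0 S = rho a b G S - (∑ r ∈ S, rv a b G r - ∑ r ∈ S, rv a b G0 r) := by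
    have e : inner a b G0 S = inner a b G S := by
      unfold inner
      refine sum_congr rfl fun v hv => sum_congr rfl fun w hw => ?_
      have hvn : v ≠ v0 := fun h => hv0S (h ▸ hv)
      have hwn : w ≠ v0 := fun h => hv0S (h ▸ hw)
      have e1 : G0.h v w = G.h v w := by
        rw [hG0]
        show G.h v w - (if v = v0 then fh w else if w = v0 then fh v else 0) = _
        rw [if_neg hvn, if_neg hwn]
        exact Nat.sub_zero _
      have e2 : G0.m v w = G.m v w := by
        rw [hG0]
        show G.m v w - (if v = v0 then fm w else if w = v0 then fm v else 0) = _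
        rw [if_neg hvn, if_neg hwn]
        exact Nat.sub_zero _
      unfold wt
      rw [e1, e2]
    unfold rho
    rw [e]
    ring
  have k5 : ∑ r ∈ S, rv a b G r - ∑ r ∈ S, rv a b G0 r ≤ ∑ r ∈ S, c * (fh r : ℤ) := by
    rw [← sum_sub_distrib]
    refine sum_le_sum fun r _ => ?_
    have ht : (G0.t r : ℤ) ≥ G.t r - (if x v0 then (fh r : ℤ) else 0) := by
      rw [hG0]
      show ((if x v0 then G.t r - fh r else G.t r : ℕ) : ℤ) ≥ _
      split_ifs
      · omega
      · simp
    have hs : (G0.s r : ℤ) ≥ G.s r - (if x v0 then 0 else (fh r : ℤ)) := by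
      rw [hG0]
      show ((if x v0 then G.s r else G.s r - fh r : ℕ) : ℤ) ≥ _
      split_ifs
      · simp
      · omega
    have ha0 : (0 : ℤ) ≤ a := Int.natCast_nonneg _
    have hb0 : (0 : ℤ) ≤ b := Int.natCast_nonneg _
    unfold rv
    rw [hc]
    split_ifs at ht hs ⊢ <;> nlinarith
  have k6 : cross a b G0 T S = cross a b G T S
      - ∑ r ∈ S, ((b : ℤ) * (a - 1) * fh r + a * fm r) := by
    have e1 : ∀ H : Str, cross a b H T S
        = ∑ r ∈ S, wt a b H v0 r + ∑ v ∈ T.erase v0, ∑ r ∈ S, wt a b H v r := by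
      intro H
      unfold cross
      rw [← add_sum_erase _ _ hv0]
    rw [e1 G0, e1 G]
    have e2 : ∑ v ∈ T.erase v0, ∑ r ∈ S, wt a b G0 v r
        = ∑ v ∈ T.erase v0, ∑ r ∈ S, wt a b G v r := by
      refine sum_congr rfl fun v hv => sum_congr rfl fun r hr => ?_
      have hvn : v ≠ v0 := ne_of_mem_erase hv
      have hrn : r ≠ v0 := fun h => hv0S (h ▸ hr)
      have e1 : G0.h v r = G.h v r := by
        rw [hG0]
        show G.h v r - (if v = v0 then fh r else if r = v0 then fh v else 0) = _
        rw [if_neg hvn, if_neg hrn]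
        exact Nat.sub_zero _
      have e2 : G0.m v r = G.m v r := by
        rw [hG0]
        show G.m v r - (if v = v0 then fm r else if r = v0 then fm v else 0) = _
        rw [if_neg hvn, if_neg hrn]
        exact Nat.sub_zero _
      unfold wt
      rw [e1, e2]
    have e3 : ∑ r ∈ S, wt a b G0 v0 r = ∑ r ∈ S, wt a b G v0 r
        - ∑ r ∈ S, ((b : ℤ) * (a - 1) * fh r + a * fm r) := by
      rw [← sum_sub_distrib]
      refine sum_congr rfl fun r _ => ?_
      have e1 : (G0.h v0 r : ℤ) = G.h v0 r - fh r := by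
        rw [hG0]
        show ((G.h v0 r - (if v0 = v0 then fh r else _) : ℕ) : ℤ) = _
        rw [if_pos rfl, Nat.cast_sub (hfh r)]
      have e2 : (G0.m v0 r : ℤ) = G.m v0 r - fm r := by
        rw [hG0]
        show ((G.m v0 r - (if v0 = v0 then fm r else _) : ℕ) : ℤ) = _
        rw [if_pos rfl, Nat.cast_sub (hfm r)]
      unfold wt
      rw [e1, e2]
      ring
    rw [e2, e3]
    ring
  have k7 : (n1 G0 x T S : ℤ) = n1 G x T S - (if x v0 then ∑ r ∈ S, ((fh r : ℤ) + fm r) else 0) := by
    have e1 : ∀ H : Str, n1 H x T S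
        = (∑ r ∈ S, if x v0 then H.h v0 r + H.m v0 r else 0)
          + ∑ v ∈ T.erase v0, ∑ r ∈ S, if x v then H.h v r + H.m v r else 0 := by
      intro H
      unfold n1
      rw [← add_sum_erase _ _ hv0]
    rw [e1 G0, e1 G]
    have e2 : ∑ v ∈ T.erase v0, ∑ r ∈ S, (if x v then G0.h v r + G0.m v r else 0)
        = ∑ v ∈ T.erase v0, ∑ r ∈ S, (if x v then G.h v r + G.m v r else 0) := by
      refine sum_congr rfl fun v hv => sum_congr rfl fun r hr => ?_
      have hvn : v ≠ v0 := ne_of_mem_erase hv
      have hrn : r ≠ v0 := fun h => hv0S (h ▸ hr)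
      have e1 : G0.h v r = G.h v r := by
        rw [hG0]
        show G.h v r - (if v = v0 then fh r else if r = v0 then fh v else 0) = _
        rw [if_neg hvn, if_neg hrn]
        exact Nat.sub_zero _
      have e2 : G0.m v r = G.m v r := by
        rw [hG0]
        show G.m v r - (if v = v0 then fm r else if r = v0 then fm v else 0) = _
        rw [if_neg hvn, if_neg hrn]
        exact Nat.sub_zero _
      rw [e1, e2]
    rw [e2]
    push_cast
    have e3 : (∑ r ∈ S, if x v0 then ((G0.h v0 r : ℤ) + G0.m v0 r) else 0)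
        = (∑ r ∈ S, if x v0 then ((G.h v0 r : ℤ) + G.m v0 r) else 0)
          - (if x v0 then ∑ r ∈ S, ((fh r : ℤ) + fm r) else 0) := by
      by_cases hx : x v0 = true
      · simp only [hx, if_true]
        rw [← sum_sub_distrib]
        refine sum_congr rfl fun r _ => ?_
        have e1 : (G0.h v0 r : ℤ) = G.h v0 r - fh r := by
          rw [hG0]
          show ((G.h v0 r - (if v0 = v0 then fh r else _) : ℕ) : ℤ) = _
          rw [if_pos rfl, Nat.cast_sub (hfh r)]
        have e2 : (G0.m v0 r : ℤ) = G.m v0 r - fm r := by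
          rw [hG0]
          show ((G.m v0 r - (if v0 = v0 then fm r else _) : ℕ) : ℤ) = _
          rw [if_pos rfl, Nat.cast_sub (hfm r)]
        rw [e1, e2]
        ring
      · simp [hx]
    rw [e3]
    ring
  rw [k4, k6, k7] at k1
  have k8 : ∑ r ∈ S, (gH a b (x v0) * (fh r : ℤ) + gM a b (x v0) * (fm r : ℤ))
      = ∑ r ∈ S, ((b : ℤ) * (a - 1) * fh r + a * fm r) - (∑ r ∈ S, c * (fh r : ℤ))
        - ((a : ℤ) - b) * (if x v0 then ∑ r ∈ S, ((fh r : ℤ) + fm r) else 0) := by
    rw [hc]
    unfold gH gM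
    by_cases hx : x v0 = true
    · simp only [hx, if_true]
      rw [mul_sum, ← sum_sub_distrib, ← sum_sub_distrib]
      refine sum_congr rfl fun r _ => ?_
      ring
    · have hx' : x v0 = false := by simpa using hx
      simp only [hx', Bool.false_eq_true, if_false, mul_zero, sub_zero]
      rw [← sum_sub_distrib]
      refine sum_congr rfl fun r _ => ?_
      ring
  rw [k8, k3]
  linarith

end

end Pool.Agent.Lib.MP_4006b4_co_d
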