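import Mathlib
import Pool.Agent.Lib.MP_4006b4_co_d.ExtV

/-!
# Sets which contain a vertex but not all of its neighbours
-/

open Finset

namespace Pool.Agent.Lib.MP_4006b4_co_d

/-- Number of edges between `w` and `X`. -/
def kk (G : Str) (w : ℕ) (X : Finset ℕ) : ℕ := ∑ r ∈ X, G.h w r

/-- Number of link ends between `w` and `X`. -/
def nn (G : Str) (w : ℕ) (X : Finset ℕ) : ℕ := ∑ r ∈ X, G.m w r

/-- Number of edges and links leaving `T` at `w`. -/
def out (G : Str) (w : ℕ) (T : Finset ℕ) : ℕ := ∑ r ∈ G.V \ T, (G.h w r + G.m w r)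

section

variable {a b : ℕ} {G : Str}

theorem out_mono {w : ℕ} {T T' : Finset ℕ} (h : T ⊆ T') : out G w T' ≤ out G w T := by
  unfold out
  exact sum_le_sum_of_subset (sdiff_subset_sdiff (Subset.refl _) h)

theorem sdiff_union' {T R V : Finset ℕ} (hR : R ⊆ V \ T) : V \ T = R ∪ (V \ (T ∪ R)) := by
  ext v
  simp only [mem_sdiff, mem_union]
  constructor
  · rintro ⟨h1, h2⟩
    by_cases h3 : v ∈ R
    · exact Or.inl h3
    · exact Or.inr ⟨h1, fun h => h.elim h2 h3⟩
  · rintro (h | ⟨h1, h2⟩)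
    · exact mem_sdiff.1 (hR h)
    · exact ⟨h1, fun h => h2 (Or.inl h)⟩

theorem disj_sdiff' {T R V : Finset ℕ} : Disjoint R (V \ (T ∪ R)) :=
  disjoint_left.2 fun _ h1 h2 => (mem_sdiff.1 h2).2 (mem_union_right _ h1)

theorem sum_split {T R V : Finset ℕ} (hR : R ⊆ V \ T) (f : ℕ → ℕ) :
    ∑ r ∈ R, f r + ∑ r ∈ V \ (T ∪ R), f r = ∑ r ∈ V \ T, f r := by
  rw [sdiff_union' hR, sum_union disj_sdiff']

theorem out_union {w : ℕ} {T R : Finset ℕ} (hR : R ⊆ G.V \ T) :
    (kk G w R + nn G w R) + out G w (T ∪ R) = out G w T := by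
  unfold kk nn out
  rw [← sum_add_distrib]
  exact sum_split hR _

/-- The edges of a first-part vertex count in `n1`. -/
theorem out_le_n1 {x : ℕ → Bool} {T : Finset ℕ} {w : ℕ} (hw : w ∈ T) (hx : x w = true)
    (S : Finset ℕ) : kk G w S + nn G w S ≤ n1 G x T S := by
  unfold n1 kk nn
  rw [← sum_add_distrib]
  have h1 : ∑ r ∈ S, (G.h w r + G.m w r) = ∑ r ∈ S, if x w then G.h w r + G.m w r else 0 := by
    refine sum_congr rfl fun r _ => ?_
    rw [hx]
    rfl
  rw [h1]
  exact single_le_sum (f := fun v => ∑ r ∈ S, if x v then G.h v r + G.m v r else 0)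
    (fun _ _ => Nat.zero_le _) hw

theorem sum_sub_le (f : ℕ → ℕ) (v k : ℕ) (S : Finset ℕ) {c : ℤ} (hc : 0 ≤ c) :
    ∑ u ∈ S, c * ((f u : ℤ) - ((if u = v then f u - k else f u : ℕ) : ℤ))
      ≤ if v ∈ S then c * k else 0 := by
  classical
  have e : ∀ u ∈ S, c * ((f u : ℤ) - ((if u = v then f u - k else f u : ℕ) : ℤ))
      ≤ if u = v then c * k else 0 := by
    intro u _
    by_cases hu : u = v
    · rw [if_pos hu, if_pos hu]
      have : (f u : ℤ) - ((f u - k : ℕ) : ℤ) ≤ k := by omega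
      exact mul_le_mul_of_nonneg_left this hc
    · rw [if_neg hu, if_neg hu]
      simp
  refine (sum_le_sum e).trans (le_of_eq ?_)
  rw [sum_ite_eq']

/-- Lowering the thresholds of `v`. -/
theorem MinCE.lower (M : MinCE a b G) {T : Finset ℕ} (hT : T ⊆ G.V) (hTV : T ≠ G.V) {v : ℕ}
    (hv : v ∈ T) (k q : ℕ)
    (h : ∀ Y ⊆ T, v ∈ Y → (a : ℤ) * k + b * q - b + 1 ≤ rho a b G Y) :
    ∃ x A, IsCol (G.res T) x A ∧
      load G x A T v + 1 + (if x v then k else q) ≤ thr G (x v) v := by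
  classical
  have ha0 : (0 : ℤ) ≤ a := Int.natCast_nonneg _
  have hb0 : (0 : ℤ) ≤ b := Int.natCast_nonneg _
  have hcol : Colorable (G.sub T (fun u => if u = v then G.t u - k else G.t u)
      (fun u => if u = v then G.s u - q else G.s u)) := by
    by_contra hn
    obtain ⟨S, hS, hSne, hr⟩ := M.sub hT hTV (t := fun u => if u = v then G.t u - k else G.t u)
      (s := fun u => if u = v then G.s u - q else G.s u)
      (fun u => by split_ifs <;> omega)
      (fun u => by split_ifs <;> omega) hn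
    have h1 := sum_sub_le G.t v k S ha0
    have h2 := sum_sub_le G.s v q S hb0
    by_cases hvS : v ∈ S
    · rw [if_pos hvS] at h1 h2
      have h3 := h S hS hvS
      linarith
    · rw [if_neg hvS] at h1 h2
      have h3 := M.pos S (hS.trans hT) hSne
      linarith
  obtain ⟨x, A, hc⟩ := hcol
  refine ⟨x, A, ?_, ?_⟩
  · refine IsCol.mono (G := G.sub T (fun u => if u = v then G.t u - k else G.t u)
      (fun u => if u = v then G.s u - q else G.s u)) (G' := G.res T) (fun _ h => h)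
        (fun _ _ _ _ => le_rfl) (fun _ _ _ _ => le_rfl) ?_ ?_ hc
    · intro u _
      show (if u = v then G.t u - k else G.t u) ≤ G.t u
      split_ifs <;> omega
    · intro u _
      show (if u = v then G.s u - q else G.s u) ≤ G.s u
      split_ifs <;> omega
  · have h1 : load G x A T v + 1 ≤ thr (G.sub T (fun u => if u = v then G.t u - k else G.t u)
      (fun u => if u = v then G.s u - q else G.s u)) (x v) v := hc.cap v hv
    cases hx : x v
    · rw [hx, thr_false] at h1
      have h2 : (G.sub T (fun u => if u = v then G.t u - k else G.t u)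
        (fun u => if u = v then G.s u - q else G.s u)).s v = G.s v - q := if_pos rfl
      rw [h2] at h1
      rw [thr_false]
      simp only [Bool.false_eq_true, if_false]
      omega
    · rw [hx, thr_true] at h1
      have h2 : (G.sub T (fun u => if u = v then G.t u - k else G.t u)
        (fun u => if u = v then G.s u - q else G.s u)).t v = G.t v - k := if_pos rfl
      rw [h2] at h1
      rw [thr_true]
      simp only [if_true]
      omega

theorem exists_distr (R : Finset ℕ) (e : ℕ → ℕ) : ∀ q ≤ ∑ r ∈ R, e r,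
    ∃ f : ℕ → ℕ, (∀ r, f r ≤ e r) ∧ (∀ r, r ∉ R → f r = 0) ∧ ∑ r ∈ R, f r = q := by
  classical
  induction R using Finset.induction_on with
  | empty =>
    intro q hq
    rw [sum_empty] at hq
    exact ⟨fun _ => 0, fun _ => Nat.zero_le _, fun _ _ => rfl, by rw [sum_empty]; omega⟩
  | insert r0 R h0 ih =>
    intro q hq
    rw [sum_insert h0] at hq
    obtain ⟨f, h1, h2, h3⟩ := ih (min q (∑ r ∈ R, e r)) (min_le_right _ _)
    refine ⟨fun r => if r = r0 then q - min q (∑ r ∈ R, e r) else f r, ?_, ?_, ?_⟩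
    · intro r
      by_cases hr : r = r0
      · simp only [if_pos hr]
        rw [hr]
        omega
      · simp only [if_neg hr]
        exact h1 r
    · intro r hr
      rw [mem_insert] at hr
      have hr1 : r ≠ r0 := fun h => hr (Or.inl h)
      simp only [if_neg hr1]
      exact h2 r fun h => hr (Or.inr h)
    · rw [sum_insert h0, if_pos rfl]
      have : ∑ r ∈ R, (if r = r0 then q - min q (∑ r ∈ R, e r) else f r) = ∑ r ∈ R, f r := by
        refine sum_congr rfl fun r hr => if_neg ?_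
        intro h
        exact h0 (h ▸ hr)
      rw [this, h3]
      omega

/-- Choosing `q` edges or links leaving `T` at `v`. -/
theorem exists_spare {v : ℕ} {T : Finset ℕ} (hT : T ⊆ G.V) {q : ℕ} (hq : q ≤ out G v T) :
    ∃ fh fm : ℕ → ℕ, (∀ r, fh r ≤ G.h v r) ∧ (∀ r, fm r ≤ G.m v r) ∧
      (∀ r ∈ T, fh r = 0 ∧ fm r = 0) ∧ ∑ r ∈ G.V, (fh r + fm r) = q := by
  classical
  obtain ⟨f, h1, h2, h3⟩ := exists_distr (G.V \ T) (fun r => G.h v r + G.m v r) q hq
  have h0 : ∀ r ∈ T, f r = 0 := fun r hr => h2 r fun h => (mem_sdiff.1 h).2 hr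
  refine ⟨fun r => min (f r) (G.h v r), fun r => f r - min (f r) (G.h v r), ?_, ?_, ?_, ?_⟩
  · intro r
    exact min_le_right _ _
  · intro r
    have := h1 r
    dsimp only
    omega
  · intro r hr
    dsimp only
    rw [h0 r hr]
    simp
  · have e : ∀ r ∈ G.V, min (f r) (G.h v r) + (f r - min (f r) (G.h v r)) = f r := by
      intro r _
      omega
    rw [sum_congr rfl e, ← sum_sdiff hT, h3, sum_eq_zero h0, add_zero]

/-- Choosing `q` edges or links leaving `T` at `v`, the edge `vw` among them. -/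
theorem exists_spare' {v w : ℕ} {T : Finset ℕ} (hT : T ⊆ G.V) (hw : w ∈ G.V \ T)
    (hh : G.h v w ≠ 0) {q : ℕ} (hq1 : 1 ≤ q) (hq : q ≤ out G v T) :
    ∃ fh fm : ℕ → ℕ, (∀ r, fh r ≤ G.h v r) ∧ (∀ r, fm r ≤ G.m v r) ∧
      (∀ r ∈ T, fh r = 0 ∧ fm r = 0) ∧ ∑ r ∈ G.V, (fh r + fm r) = q ∧ 1 ≤ fh w := by
  classical
  have hsum : ∑ r ∈ G.V \ T, (if r = w then 1 else 0) = 1 := by
    rw [sum_ite_eq', if_pos hw]
  have hle : ∀ r, (if r = w then 1 else 0) ≤ G.h v r + G.m v r := by
    intro r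
    split_ifs with h
    · rw [h]
      omega
    · exact Nat.zero_le _
  have hsub : ∑ r ∈ G.V \ T, (G.h v r + G.m v r - if r = w then 1 else 0)
      + ∑ r ∈ G.V \ T, (if r = w then 1 else 0) = out G v T := by
    unfold out
    rw [← sum_add_distrib]
    refine sum_congr rfl fun r _ => ?_
    have := hle r
    omega
  rw [hsum] at hsub
  obtain ⟨f, h1, h2, h3⟩ := exists_distr (G.V \ T)
    (fun r => G.h v r + G.m v r - if r = w then 1 else 0) (q - 1) (by omega)
  have h0 : ∀ r ∈ T, f r = 0 := fun r hr => h2 r fun h => (mem_sdiff.1 h).2 hr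
  have hwT : w ∉ T := (mem_sdiff.1 hw).2
  obtain ⟨g, hg⟩ : ∃ g : ℕ → ℕ, g = fun r => f r + if r = w then 1 else 0 := ⟨_, rfl⟩
  have hg1 : ∀ r, g r ≤ G.h v r + G.m v r := by
    intro r
    have h4 := h1 r
    have h5 := hle r
    rw [hg]
    dsimp only at h4 ⊢
    omega
  have hg0 : ∀ r ∈ T, g r = 0 := by
    intro r hr
    rw [hg]
    dsimp only
    rw [h0 r hr, if_neg (fun h : r = w => hwT (h ▸ hr))]
  have hg3 : ∑ r ∈ G.V \ T, g r = q := by
    rw [hg, sum_add_distrib, h3, hsum]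
    omega
  refine ⟨fun r => min (g r) (G.h v r), fun r => g r - min (g r) (G.h v r), ?_, ?_, ?_, ?_, ?_⟩
  · intro r
    exact min_le_right _ _
  · intro r
    have := hg1 r
    dsimp only
    omega
  · intro r hr
    dsimp only
    rw [hg0 r hr]
    simp
  · have e : ∀ r ∈ G.V, min (g r) (G.h v r) + (g r - min (g r) (G.h v r)) = g r := by
      intro r _
      omega
    rw [sum_congr rfl e, ← sum_sdiff hT, hg3, sum_eq_zero hg0, add_zero]
  · have : 1 ≤ g w := by
      rw [hg]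
      dsimp only
      rw [if_pos rfl]
      omega
    dsimp only
    omega

/-- Data of a chosen family of edges and links and a set `R`: number inside `R` and outside. -/
theorem spare_split {v : ℕ} {T R : Finset ℕ} (hT : T ⊆ G.V) (hR : R ⊆ G.V \ T) {fh fm : ℕ → ℕ}
    (hfh : ∀ r, fh r ≤ G.h v r) (hfm : ∀ r, fm r ≤ G.m v r)
    (hfT : ∀ r ∈ T, fh r = 0 ∧ fm r = 0) :
    ∑ r ∈ G.V, (fh r + fm r) ≤ ∑ r ∈ R, (fh r + fm r) + out G v (T ∪ R) ∧
    (∑ r ∈ G.V, (fh r + fm r) = out G v T →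
      ∑ r ∈ R, (fh r + fm r) + out G v (T ∪ R) = out G v T) := by
  classical
  have e1 : ∑ r ∈ G.V, (fh r + fm r) = ∑ r ∈ G.V \ T, (fh r + fm r) := by
    rw [← sum_sdiff hT]
    have : ∑ r ∈ T, (fh r + fm r) = 0 := sum_eq_zero fun r hr => by
      have := hfT r hr
      omega
    rw [this, add_zero]
  have e2 := sum_split hR (fun r => fh r + fm r)
  have e3 : ∑ r ∈ G.V \ (T ∪ R), (fh r + fm r) ≤ out G v (T ∪ R) :=
    sum_le_sum fun r _ => Nat.add_le_add (hfh r) (hfm r)
  refine ⟨by rw [e1, ← e2]; omega, ?_⟩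
  intro heq
  have e4 : ∑ r ∈ R, (fh r + fm r) ≤ kk G v R + nn G v R := by
    unfold kk nn
    rw [← sum_add_distrib]
    exact sum_le_sum fun r _ => Nat.add_le_add (hfh r) (hfm r)
  have e5 := out_union (G := G) (w := v) hR
  rw [e1, ← e2] at heq
  omega

theorem exists_min_rho (Q : Finset ℕ → Prop) (hQ : ∃ T, T ⊆ G.V ∧ Q T) :
    ∃ T, T ⊆ G.V ∧ Q T ∧ ∀ S ⊆ G.V, Q S → rho a b G T ≤ rho a b G S := by
  classical
  obtain ⟨T, hT, hQT⟩ := hQ
  obtain ⟨T0, h0, hmin⟩ := exists_min_image (G.V.powerset.filter Q) (fun T => rho a b G T)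
    ⟨T, mem_filter.2 ⟨mem_powerset.2 hT, hQT⟩⟩
  obtain ⟨h1, h2⟩ := mem_filter.1 h0
  exact ⟨T0, mem_powerset.1 h1, h2, fun S hS hQS =>
    hmin S (mem_filter.2 ⟨mem_powerset.2 hS, hQS⟩)⟩

end

end Pool.Agent.Lib.MP_4006b4_co_d
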