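import Mathlib
import Pool.Agent.Lib.MP_4006b4_co_d.Sep

/-!
# Lower bounds for the potential of sets separated from some neighbours
-/

open Finset

namespace Pool.Agent.Lib.MP_4006b4_co_d

section

variable {a b : ℕ} {G : Str}

/-- Potential of a nonempty set, whether proper or not. -/
theorem MinCE.geV (M : MinCE a b G) (P : Par a b) {T : Finset ℕ} (hT : T ⊆ G.V)
    (hne : T.Nonempty) : rho a b G G.V ≤ rho a b G T := by
  by_cases h : T = G.V
  · rw [h]
  · have h1 := M.p1 P hT hne h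
    have h2 : (0 : ℤ) ≤ a := Int.natCast_nonneg _
    linarith

theorem MinCE.sepTwo_aux (M : MinCE a 2 G) (P : Par a 2) : ∀ n : ℕ, ∀ T ⊆ G.V,
    #(G.V \ T) ≤ n → ∀ v ∈ T, ∀ w ∈ G.V, w ∉ T → G.h v w ≠ 0 →
      rho a 2 G G.V + 2 * a - 2 ≤ rho a 2 G T := by
  classical
  intro n
  induction n with
  | zero =>
    intro T hT hn v hv w hw hwT hh
    exfalso
    have h1 : G.V \ T = ∅ := card_eq_zero.1 (by omega)
    have h2 : w ∈ G.V \ T := mem_sdiff.2 ⟨hw, hwT⟩
    rw [h1] at h2
    exact notMem_empty _ h2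
  | succ n ih =>
    intro T hT hn v hv w hw hwT hh
    have hvV := hT hv
    have hvw : v ≠ w := fun h => hwT (h ▸ hv)
    have hTV : T ≠ G.V := fun h => hwT (h ▸ hw)
    have hwd : w ∈ G.V \ T := mem_sdiff.2 ⟨hw, hwT⟩
    have ht : G.t v ≤ 1 := by
      have := M.wf.tb v hvV w hw hh
      omega
    obtain ⟨x, A, hc, hcap⟩ := M.lower hT hTV hv 1 1 (by
      intro Y hY hvY
      have h1 := M.nosep P (hY.trans hT) hvY hw (fun h => hwT (hY h)) hh
      push_cast
      linarith)
    have hx : x v = false := by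
      cases hx : x v
      · rfl
      · rw [hx, thr_true] at hcap
        simp only [if_true] at hcap
        omega
    have hcap2 : load G x A T v + 1 + 1 ≤ thr G (x v) v := by
      rw [hx] at hcap ⊢
      simpa using hcap
    have hout : 1 ≤ out G v T := by
      have h1 : G.h v w + G.m v w ≤ out G v T :=
        single_le_sum (f := fun r => G.h v r + G.m v r) (fun _ _ => Nat.zero_le _) hwd
      omega
    obtain ⟨fh, fm, h1, h2, h3, h4, h5⟩ := exists_spare' hT hwd hh (q := 1) le_rfl hout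
    obtain ⟨R, hR, hRne, hr⟩ := M.extv hT hc hv h1 h2 h3 (by rw [h4]; exact hcap2)
    have hJ := P.hJ
    have hn1 : (0 : ℤ) ≤ ((a : ℤ) - (2 : ℕ)) * (n1 G x T R : ℤ) :=
      mul_nonneg (by push_cast at hJ ⊢; linarith) (Int.natCast_nonneg _)
    have hsub : T ∪ R ⊆ G.V := union_subset hT (hR.trans sdiff_subset)
    have hune : (T ∪ R).Nonempty := ⟨v, mem_union_left _ hv⟩
    have hterm : ∀ r, (0 : ℤ) ≤ gH a 2 (x v) * (fh r : ℤ) + gM a 2 (x v) * (fm r : ℤ) := by
      intro r
      rw [hx]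
      unfold gH gM
      simp only [Bool.false_eq_true, if_false]
      have h6 : (0 : ℤ) ≤ (fh r : ℤ) := Int.natCast_nonneg _
      have h7 : (0 : ℤ) ≤ (fm r : ℤ) := Int.natCast_nonneg _
      have h8 : (0 : ℤ) ≤ a := Int.natCast_nonneg _
      push_cast at hJ ⊢
      nlinarith [mul_nonneg h8 h7]
    by_cases hwR : w ∈ R
    · have h6 : gH a 2 (x v) * (fh w : ℤ) + gM a 2 (x v) * (fm w : ℤ)
          ≤ ∑ r ∈ R, (gH a 2 (x v) * (fh r : ℤ) + gM a 2 (x v) * (fm r : ℤ)) :=
        single_le_sum (f := fun r => gH a 2 (x v) * (fh r : ℤ) + gM a 2 (x v) * (fm r : ℤ))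
          (fun r _ => hterm r) hwR
      have h7 : 2 * (a : ℤ) - 4 ≤ gH a 2 (x v) * (fh w : ℤ) + gM a 2 (x v) * (fm w : ℤ) := by
        rw [hx]
        unfold gH gM
        simp only [Bool.false_eq_true, if_false]
        have h6 : (1 : ℤ) ≤ (fh w : ℤ) := by exact_mod_cast h5
        have h7 : (0 : ℤ) ≤ (fm w : ℤ) := Int.natCast_nonneg _
        have h8 : (0 : ℤ) ≤ a := Int.natCast_nonneg _
        push_cast at hJ ⊢
        nlinarith [mul_nonneg h8 h7]
      have h8 := M.geV P hsub hune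
      push_cast at hr hn1
      linarith
    · have h6 : (0 : ℤ) ≤ ∑ r ∈ R, (gH a 2 (x v) * (fh r : ℤ) + gM a 2 (x v) * (fm r : ℤ)) :=
        sum_nonneg fun r _ => hterm r
      have hwTR : w ∉ T ∪ R := by
        rw [mem_union]
        tauto
      have hcard : #(G.V \ (T ∪ R)) ≤ n := by
        obtain ⟨r, hr⟩ := hRne
        have h7 : #(G.V \ (T ∪ R)) < #(G.V \ T) := by
          refine card_lt_card ⟨sdiff_subset_sdiff (Subset.refl _) subset_union_left, fun h => ?_⟩
          exact (mem_sdiff.1 (h (hR hr))).2 (mem_union_right _ hr)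
        omega
      have h8 := ih (T ∪ R) hsub hcard v (mem_union_left _ hv) w hw hwTR hh
      push_cast at hr hn1
      linarith

/-- `b = 2`: sets separating an edge. -/
theorem MinCE.sepTwo (M : MinCE a 2 G) (P : Par a 2) {T : Finset ℕ} (hT : T ⊆ G.V) {v w : ℕ}
    (hv : v ∈ T) (hw : w ∈ G.V) (hwT : w ∉ T) (hh : G.h v w ≠ 0) :
    rho a 2 G G.V + 2 * a - 2 ≤ rho a 2 G T :=
  M.sepTwo_aux P _ T hT le_rfl v hv w hw hwT hh

theorem sum_gain_false (P : Par a 3) {fh fm : ℕ → ℕ} (R : Finset ℕ) :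
    (a : ℤ) * ((∑ r ∈ R, (fh r + fm r) : ℕ) : ℤ)
      ≤ ∑ r ∈ R, (gH a 3 false * (fh r : ℤ) + gM a 3 false * (fm r : ℤ)) := by
  push_cast
  rw [mul_sum]
  refine sum_le_sum fun r _ => ?_
  unfold gH gM
  simp only [Bool.false_eq_true, if_false]
  have hJ := P.hJ
  have h6 : (0 : ℤ) ≤ (fh r : ℤ) := Int.natCast_nonneg _
  push_cast at hJ ⊢
  nlinarith

theorem sum_gain_false' (P : Par a 3) {fh fm : ℕ → ℕ} {R : Finset ℕ} {w : ℕ} (hw : w ∈ R)
    (h1 : 1 ≤ fh w) :
    (a : ℤ) * ((∑ r ∈ R, (fh r + fm r) : ℕ) : ℤ) + (2 * a - 6)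
      ≤ ∑ r ∈ R, (gH a 3 false * (fh r : ℤ) + gM a 3 false * (fm r : ℤ)) := by
  have hJ := P.hJ
  have key : (2 * (a : ℤ) - 6) ≤ ∑ r ∈ R, ((gH a 3 false * (fh r : ℤ) + gM a 3 false * (fm r : ℤ))
      - a * ((fh r : ℤ) + fm r)) := by
    have h2 : ∀ r, (0 : ℤ) ≤ (gH a 3 false * (fh r : ℤ) + gM a 3 false * (fm r : ℤ))
      - a * ((fh r : ℤ) + fm r) := by
      intro r
      unfold gH gM
      simp only [Bool.false_eq_true, if_false]
      have h6 : (0 : ℤ) ≤ (fh r : ℤ) := Int.natCast_nonneg _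
      push_cast at hJ ⊢
      nlinarith
    refine le_trans ?_ (single_le_sum (f := fun r => (gH a 3 false * (fh r : ℤ)
      + gM a 3 false * (fm r : ℤ)) - a * ((fh r : ℤ) + fm r)) (fun r _ => h2 r) hw)
    unfold gH gM
    simp only [Bool.false_eq_true, if_false]
    have h6 : (1 : ℤ) ≤ (fh w : ℤ) := by exact_mod_cast h1
    push_cast at hJ ⊢
    nlinarith
  rw [sum_sub_distrib, ← mul_sum] at key
  push_cast
  linarith

/-- `b = 3`: a vertex `v` of a proper set `T` with many edges and links leaving `T`. -/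
theorem MinCE.outb (M : MinCE a 3 G) (P : Par a 3) {v : ℕ} {T : Finset ℕ} (hT : T ⊆ G.V)
    (hv : v ∈ T) (hTV : T ≠ G.V) (ho : 1 ≤ out G v T) :
    min ((a : ℤ) - 5 + 3 * out G v T) (2 * a - 5) ≤ rho a 3 G T := by
  classical
  by_contra hcon
  obtain ⟨T, hT, ⟨hv, hTV, ho, hcon⟩, hmin⟩ := exists_min_rho (a := a) (b := 3) (G := G)
    (fun T => v ∈ T ∧ T ≠ G.V ∧ 1 ≤ out G v T ∧
      ¬ (min ((a : ℤ) - 5 + 3 * out G v T) (2 * a - 5) ≤ rho a 3 G T)) ⟨T, hT, hv, hTV, ho, hcon⟩
  rw [min_le_iff, not_or, not_le, not_le] at hcon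
  obtain ⟨hc1, hc2⟩ := hcon
  have ha6 : (6 : ℤ) ≤ a := by
    have := P.hJ
    push_cast at this
    linarith
  have hVge : (-2 : ℤ) ≤ rho a 3 G G.V := by
    have := M.rhoV
    push_cast at this
    linarith
  have hp1 : ∀ S ⊆ G.V, v ∈ S → S ≠ G.V → (a : ℤ) - 2 ≤ rho a 3 G S := by
    intro S h1 h2 h3
    have := M.p1 P h1 ⟨v, h2⟩ h3
    linarith
  have hmin' : ∀ S ⊆ G.V, v ∈ S → S ≠ G.V → 1 ≤ out G v S → rho a 3 G S < rho a 3 G T →
      (a : ℤ) - 5 + 3 * out G v S ≤ rho a 3 G S ∨ 2 * (a : ℤ) - 5 ≤ rho a 3 G S := by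
    intro S h1 h2 h3 h4 h5
    by_contra h
    rw [not_or] at h
    have := hmin S h1 ⟨h2, h3, h4, by rw [min_le_iff, not_or]; exact h⟩
    linarith
  obtain ⟨μ, hμ⟩ : ∃ μ, μ = rho a 3 G T := ⟨_, rfl⟩
  obtain ⟨β, hβ⟩ : ∃ β : ℕ, β = out G v T := ⟨_, rfl⟩
  rw [← hμ] at hc1 hc2 hmin'
  rw [← hβ] at hc1 ho
  have hμ0 : (a : ℤ) - 2 ≤ μ := by rw [hμ]; exact hp1 T hT hv hTV
  -- the number of spare units
  obtain ⟨q, hq⟩ : ∃ q : ℕ, (q : ℤ) = (μ + 2) / 3 := ⟨((μ + 2) / 3).toNat, by omega⟩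
  have hq1 : 3 * (q : ℤ) ≤ μ + 2 := by omega
  have hq2 : μ ≤ 3 * (q : ℤ) := by omega
  have hq3 : 1 ≤ q := by omega
  have hY : ∀ Y ⊆ T, v ∈ Y → μ ≤ rho a 3 G Y := by
    intro Y hYT hvY
    by_contra hlt
    rw [not_le] at hlt
    have h1 : Y ≠ G.V := fun h => hTV (Subset.antisymm hT (h ▸ hYT))
    have h2 : out G v T ≤ out G v Y := out_mono hYT
    have h3 := hmin' Y (hYT.trans hT) hvY h1 (by omega) hlt
    have h4 : (β : ℤ) ≤ out G v Y := by
      rw [hβ]
      exact_mod_cast h2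
    rcases h3 with h3 | h3 <;> linarith
  obtain ⟨x, A, hc, hcap⟩ := M.lower hT hTV hv 0 q (by
    intro Y hYT hvY
    have := hY Y hYT hvY
    push_cast
    linarith)
  cases hx : x v
  · -- second part
    rw [hx] at hcap
    simp only [Bool.false_eq_true, if_false] at hcap
    obtain ⟨q', hq'⟩ : ∃ q', q' = min q β := ⟨_, rfl⟩
    obtain ⟨fh, fm, h1, h2, h3, h4⟩ := exists_spare (G := G) (v := v) hT (q := q')
      (by rw [hq', hβ]; exact min_le_right _ _)
    obtain ⟨R, hR, hRne, hr⟩ := M.extv hT hc hv h1 h2 h3 (by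
      rw [h4, hx]
      have : q' ≤ q := by omega
      omega)
    rw [hx, ← hμ] at hr
    have hg := sum_gain_false P (fh := fh) (fm := fm) R
    have hsp := spare_split hT hR h1 h2 h3
    rw [h4, ← hβ] at hsp
    obtain ⟨xR, hxR⟩ : ∃ k : ℕ, k = ∑ r ∈ R, (fh r + fm r) := ⟨_, rfl⟩
    rw [← hxR] at hg hsp
    have hn1 : (0 : ℤ) ≤ ((a : ℤ) - (3 : ℕ)) * (n1 G x T R : ℤ) :=
      mul_nonneg (by push_cast; linarith) (Int.natCast_nonneg _)
    have hsub : T ∪ R ⊆ G.V := union_subset hT (hR.trans sdiff_subset)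
    have hvu : v ∈ T ∪ R := mem_union_left _ hv
    have hr2 : rho a 3 G (T ∪ R) + a * xR + 3 ≤ μ := by
      push_cast at hr hn1
      linarith
    have haR : (0 : ℤ) ≤ a * xR := mul_nonneg (by linarith) (Int.natCast_nonneg _)
    by_cases hVV : T ∪ R = G.V
    · have ho0 : out G v (T ∪ R) = 0 := by
        unfold out
        rw [hVV, sdiff_self]
        rfl
      rw [ho0] at hsp
      rw [hVV] at hr2
      have h5 : (q' : ℤ) ≤ xR := by exact_mod_cast hsp.1
      have h6 : (a : ℤ) * q' ≤ a * xR := mul_le_mul_of_nonneg_left h5 (by linarith)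
      rcases le_total q β with h | h
      · have h7 : (q' : ℤ) = q := by
          have : q' = q := by omega
          rw [this]
        rw [h7] at h6
        nlinarith
      · have h7 : (q' : ℤ) = β := by
          have : q' = β := by omega
          rw [this]
        rw [h7] at h6
        have h8 : (1 : ℤ) ≤ β := by exact_mod_cast ho
        nlinarith
    · by_cases ho' : 1 ≤ out G v (T ∪ R)
      · have h5 := hmin' _ hsub hvu hVV ho' (by linarith)
        rcases le_total q β with h | h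
        · have h7 : q' = q := by omega
          rw [h7] at hsp
          have h8 : (q : ℤ) ≤ xR + out G v (T ∪ R) := by exact_mod_cast hsp.1
          have h9 : 3 * (xR : ℤ) ≤ a * xR := by nlinarith [Int.natCast_nonneg xR]
          rcases h5 with h5 | h5 <;> linarith
        · have h7 : q' = β := by omega
          have h8 : (xR : ℤ) + out G v (T ∪ R) = β := by exact_mod_cast hsp.2 h7
          have h9 : 3 * (xR : ℤ) ≤ a * xR := by nlinarith [Int.natCast_nonneg xR]
          rcases h5 with h5 | h5 <;> linarith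
      · have ho0 : out G v (T ∪ R) = 0 := by omega
        rw [ho0] at hsp
        have h5 : (q' : ℤ) ≤ xR := by exact_mod_cast hsp.1
        have h6 : (a : ℤ) * q' ≤ a * xR := mul_le_mul_of_nonneg_left h5 (by linarith)
        have h10 := hp1 _ hsub hvu hVV
        rcases le_total q β with h | h
        · have h7 : (q' : ℤ) = q := by
            have : q' = q := by omega
            rw [this]
          rw [h7] at h6
          nlinarith
        · have h7 : (q' : ℤ) = β := by
            have : q' = β := by omega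
            rw [this]
          rw [h7] at h6
          have h8 : (1 : ℤ) ≤ β := by exact_mod_cast ho
          nlinarith
  · -- first part
    obtain ⟨R, hR, hRne, hr⟩ := M.ext hT ⟨v, hv⟩ hc
    rw [← hμ] at hr
    have h1 := out_le_n1 (G := G) hv hx R
    have h2 := out_union (G := G) (w := v) hR
    rw [← hβ] at h2
    obtain ⟨e, he⟩ : ∃ e, e = kk G v R + nn G v R := ⟨_, rfl⟩
    rw [← he] at h1 h2
    have h3 : (e : ℤ) ≤ n1 G x T R := by exact_mod_cast h1
    have h4 : ((a : ℤ) - 3) * e ≤ ((a : ℤ) - 3) * n1 G x T R :=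
      mul_le_mul_of_nonneg_left h3 (by linarith)
    have hsub : T ∪ R ⊆ G.V := union_subset hT (hR.trans sdiff_subset)
    have hvu : v ∈ T ∪ R := mem_union_left _ hv
    have hr2 : rho a 3 G (T ∪ R) + ((a : ℤ) - 3) * e + 3 ≤ μ := by
      push_cast at hr
      linarith
    have h5 : (0 : ℤ) ≤ e := Int.natCast_nonneg _
    have h6 : 3 * (e : ℤ) ≤ ((a : ℤ) - 3) * e := by nlinarith
    by_cases hVV : T ∪ R = G.V
    · have ho0 : out G v (T ∪ R) = 0 := by
        unfold out
        rw [hVV, sdiff_self]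
        rfl
      rw [hVV] at hr2
      have h7 : (e : ℤ) = β := by
        have : e = β := by omega
        rw [this]
      rw [h7] at hr2
      have h8 : (1 : ℤ) ≤ β := by exact_mod_cast ho
      nlinarith
    · by_cases ho' : 1 ≤ out G v (T ∪ R)
      · have h7 := hmin' _ hsub hvu hVV ho' (by linarith)
        have h8 : (e : ℤ) + out G v (T ∪ R) = β := by exact_mod_cast h2
        rcases h7 with h7 | h7 <;> linarith
      · have h10 := hp1 _ hsub hvu hVV
        have h7 : (e : ℤ) = β := by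
          have : e = β := by omega
          rw [this]
        rw [h7] at hr2 h6
        linarith

end

end Pool.Agent.Lib.MP_4006b4_co_d
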