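import Mathlib
import Pool.Agent.Lib.MP_4006b4_co_d.Bounds

/-!
# `b = 3`: sets separating an edge at `v`
-/

open Finset

namespace Pool.Agent.Lib.MP_4006b4_co_d

section

variable {a : ℕ} {G : Str}

theorem MinCE.sepThree (M : MinCE a 3 G) (P : Par a 3) {v w : ℕ} {T : Finset ℕ} (hT : T ⊆ G.V)
    (hv : v ∈ T) (hw : w ∈ G.V) (hwT : w ∉ T) (hh : G.h v w ≠ 0) :
    min (2 * (a : ℤ) - 8 + 3 * out G v T) (4 * a - 5) ≤ rho a 3 G T := by
  classical
  by_contra hcon
  obtain ⟨T, hT, ⟨hv, ⟨w, hw, hwT, hh⟩, hcon⟩, hmin⟩ := exists_min_rho (a := a) (b := 3) (G := G)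
    (fun T => v ∈ T ∧ (∃ w ∈ G.V, w ∉ T ∧ G.h v w ≠ 0) ∧
      ¬ (min (2 * (a : ℤ) - 8 + 3 * out G v T) (4 * a - 5) ≤ rho a 3 G T))
    ⟨T, hT, hv, ⟨w, hw, hwT, hh⟩, hcon⟩
  rw [min_le_iff, not_or, not_le, not_le] at hcon
  obtain ⟨hc1, hc2⟩ := hcon
  have ha6 : (6 : ℤ) ≤ a := by
    have := P.hJ
    push_cast at this
    linarith
  have hVge : (-2 : ℤ) ≤ rho a 3 G G.V := by
    have := M.rhoV
    push_cast at this
    linarith
  have hTV : T ≠ G.V := fun h => hwT (h ▸ hw)
  have hwd : w ∈ G.V \ T := mem_sdiff.2 ⟨hw, hwT⟩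
  have ho : 1 ≤ out G v T := by
    have h1 : G.h v w + G.m v w ≤ out G v T :=
      single_le_sum (f := fun r => G.h v r + G.m v r) (fun _ _ => Nat.zero_le _) hwd
    omega
  have hp1 : ∀ S ⊆ G.V, v ∈ S → S ≠ G.V → (a : ℤ) - 2 ≤ rho a 3 G S := by
    intro S h1 h2 h3
    have := M.p1 P h1 ⟨v, h2⟩ h3
    linarith
  have hmin' : ∀ S ⊆ G.V, v ∈ S → w ∉ S → rho a 3 G S < rho a 3 G T →
      2 * (a : ℤ) - 8 + 3 * out G v S ≤ rho a 3 G S ∨ 4 * (a : ℤ) - 5 ≤ rho a 3 G S := by
    intro S h1 h2 h3 h5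
    by_contra h
    rw [not_or] at h
    have := hmin S h1 ⟨h2, ⟨w, hw, h3, hh⟩, by rw [min_le_iff, not_or]; exact h⟩
    linarith
  have hoV : ∀ R, T ∪ R = G.V → out G v (T ∪ R) = 0 := by
    intro R h
    unfold out
    rw [h, sdiff_self]
    rfl
  obtain ⟨μ, hμ⟩ : ∃ μ, μ = rho a 3 G T := ⟨_, rfl⟩
  obtain ⟨β, hβ⟩ : ∃ β : ℕ, β = out G v T := ⟨_, rfl⟩
  rw [← hμ] at hc1 hc2 hmin'
  rw [← hβ] at hc1 ho
  have hμ0 : (a : ℤ) + 1 ≤ μ := by rw [hμ]; exact M.nosep P hT hv hw hwT hh
  obtain ⟨q, hq⟩ : ∃ q : ℕ, (q : ℤ) = (μ - a + 2) / 3 := ⟨((μ - a + 2) / 3).toNat, by omega⟩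
  have hq1 : 3 * (q : ℤ) ≤ μ - a + 2 := by omega
  have hq2 : μ ≤ a + 3 * (q : ℤ) := by omega
  have hq3 : 1 ≤ q := by omega
  have hY : ∀ Y ⊆ T, v ∈ Y → μ ≤ rho a 3 G Y := by
    intro Y hYT hvY
    by_contra hlt
    rw [not_le] at hlt
    have h2 : out G v T ≤ out G v Y := out_mono hYT
    have h3 := hmin' Y (hYT.trans hT) hvY (fun h => hwT (hYT h)) hlt
    have h4 : (β : ℤ) ≤ out G v Y := by
      rw [hβ]
      exact_mod_cast h2
    rcases h3 with h3 | h3 <;> linarith
  obtain ⟨x, A, hc, hcap⟩ := M.lower hT hTV hv 1 q (by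
    intro Y hYT hvY
    have := hY Y hYT hvY
    push_cast
    linarith)
  cases hx : x v
  · -- second part
    rw [hx] at hcap
    simp only [Bool.false_eq_true, if_false] at hcap
    obtain ⟨q', hq'⟩ : ∃ q', q' = min q β := ⟨_, rfl⟩
    obtain ⟨fh, fm, h1, h2, h3, h4, hfw⟩ := exists_spare' (G := G) (v := v) hT hwd hh (q := q')
      (by omega) (by rw [hq', hβ]; exact min_le_right _ _)
    obtain ⟨R, hR, hRne, hr⟩ := M.extv hT hc hv h1 h2 h3 (by
      rw [h4, hx]
      have : q' ≤ q := by omega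
      omega)
    rw [hx, ← hμ] at hr
    have hg := sum_gain_false P (fh := fh) (fm := fm) R
    have hg' : w ∈ R → _ := fun hwR => sum_gain_false' P (fh := fh) (fm := fm) hwR hfw
    have hsp := spare_split hT hR h1 h2 h3
    rw [h4, ← hβ] at hsp
    obtain ⟨xR, hxR⟩ : ∃ k : ℕ, k = ∑ r ∈ R, (fh r + fm r) := ⟨_, rfl⟩
    rw [← hxR] at hg hg' hsp
    have hn1 : (0 : ℤ) ≤ ((a : ℤ) - (3 : ℕ)) * (n1 G x T R : ℤ) :=
      mul_nonneg (by push_cast; linarith) (Int.natCast_nonneg _)
    have hsub : T ∪ R ⊆ G.V := union_subset hT (hR.trans sdiff_subset)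
    have hvu : v ∈ T ∪ R := mem_union_left _ hv
    have haR : (0 : ℤ) ≤ a * xR := mul_nonneg (by linarith) (Int.natCast_nonneg _)
    by_cases hwR : w ∈ R
    · have hr2 : rho a 3 G (T ∪ R) + (a * xR + (2 * a - 6)) + 3 ≤ μ := by
        have := hg' hwR
        push_cast at hr hn1
        linarith
      have hx1 : 1 ≤ xR := by
        rw [hxR]
        have : fh w + fm w ≤ ∑ r ∈ R, (fh r + fm r) :=
          single_le_sum (f := fun r => fh r + fm r) (fun _ _ => Nat.zero_le _) hwR
        omega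
      by_cases hVV : T ∪ R = G.V
      · rw [hoV R hVV] at hsp
        rw [hVV] at hr2
        have h5 : (q' : ℤ) ≤ xR := by exact_mod_cast hsp.1
        have h6 : (a : ℤ) * q' ≤ a * xR := mul_le_mul_of_nonneg_left h5 (by linarith)
        rcases le_total q β with h | h
        · have h7 : (q' : ℤ) = q := by
            have : q' = q := by omega
            rw [this]
          rw [h7] at h6
          have h8 : (1 : ℤ) ≤ q := by exact_mod_cast hq3
          nlinarith
        · have h7 : (q' : ℤ) = β := by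
            have : q' = β := by omega
            rw [this]
          rw [h7] at h6
          have h8 : (1 : ℤ) ≤ β := by exact_mod_cast ho
          nlinarith
      · have h10 := hp1 _ hsub hvu hVV
        have h8 : (1 : ℤ) ≤ xR := by exact_mod_cast hx1
        nlinarith
    · have hr2 : rho a 3 G (T ∪ R) + a * xR + 3 ≤ μ := by
        push_cast at hr hn1
        linarith
      have hwu : w ∉ T ∪ R := by
        rw [mem_union]
        tauto
      have h5 := hmin' _ hsub hvu hwu (by linarith)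
      have h9 : 3 * (xR : ℤ) ≤ a * xR := by nlinarith [Int.natCast_nonneg xR]
      rcases le_total q β with h | h
      · have h7 : q' = q := by omega
        rw [h7] at hsp
        have h8 : (q : ℤ) ≤ xR + out G v (T ∪ R) := by exact_mod_cast hsp.1
        rcases h5 with h5 | h5 <;> linarith
      · have h7 : q' = β := by omega
        have h8 : (xR : ℤ) + out G v (T ∪ R) = β := by exact_mod_cast hsp.2 h7
        rcases h5 with h5 | h5 <;> linarith
  · -- first part
    rw [hx] at hcap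
    simp only [if_true] at hcap
    obtain ⟨fh, fm, h1, h2, h3, h4, hfw⟩ := exists_spare' (G := G) (v := v) hT hwd hh (q := 1)
      le_rfl (by rw [← hβ]; exact ho)
    obtain ⟨R, hR, hRne, hr⟩ := M.extv hT hc hv h1 h2 h3 (by
      rw [h4, hx]
      exact hcap)
    rw [hx, ← hμ] at hr
    have hg : (if w ∈ R then (a : ℤ) else 0)
        ≤ ∑ r ∈ R, (gH a 3 true * (fh r : ℤ) + gM a 3 true * (fm r : ℤ)) := by
      have h0 : ∀ r, (0 : ℤ) ≤ gH a 3 true * (fh r : ℤ) + gM a 3 true * (fm r : ℤ) := by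
        intro r
        unfold gH gM
        simp only [if_true]
        have h6 : (0 : ℤ) ≤ (fh r : ℤ) := Int.natCast_nonneg _
        have h7 : (0 : ℤ) ≤ (fm r : ℤ) := Int.natCast_nonneg _
        push_cast
        nlinarith
      split_ifs with hwR
      · refine le_trans ?_ (single_le_sum (f := fun r => gH a 3 true * (fh r : ℤ)
          + gM a 3 true * (fm r : ℤ)) (fun r _ => h0 r) hwR)
        unfold gH gM
        simp only [if_true]
        have h6 : (1 : ℤ) ≤ (fh w : ℤ) := by exact_mod_cast hfw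
        have h7 : (0 : ℤ) ≤ (fm w : ℤ) := Int.natCast_nonneg _
        push_cast
        nlinarith
      · exact sum_nonneg fun r _ => h0 r
    have h1' := out_le_n1 (G := G) hv hx R
    have h2' := out_union (G := G) (w := v) hR
    rw [← hβ] at h2'
    obtain ⟨e, he⟩ : ∃ e, e = kk G v R + nn G v R := ⟨_, rfl⟩
    rw [← he] at h1' h2'
    have h3' : (e : ℤ) ≤ n1 G x T R := by exact_mod_cast h1'
    have h4' : ((a : ℤ) - 3) * e ≤ ((a : ℤ) - 3) * n1 G x T R :=
      mul_le_mul_of_nonneg_left h3' (by linarith)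
    have hsub : T ∪ R ⊆ G.V := union_subset hT (hR.trans sdiff_subset)
    have hvu : v ∈ T ∪ R := mem_union_left _ hv
    have hr2 : rho a 3 G (T ∪ R) + ((a : ℤ) - 3) * e + (if w ∈ R then (a : ℤ) else 0) + 3 ≤ μ := by
      push_cast at hr
      linarith
    have h5 : (0 : ℤ) ≤ e := Int.natCast_nonneg _
    have h6 : 3 * (e : ℤ) ≤ ((a : ℤ) - 3) * e := by nlinarith
    by_cases hwR : w ∈ R
    · rw [if_pos hwR] at hr2
      have he1 : 1 ≤ e := by
        have h7 : G.h v w ≤ kk G v R :=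
          single_le_sum (f := fun r => G.h v r) (fun _ _ => Nat.zero_le _) hwR
        omega
      have he1' : (1 : ℤ) ≤ e := by exact_mod_cast he1
      have h6' : 3 * (e : ℤ) + ((a : ℤ) - 6) ≤ ((a : ℤ) - 3) * e := by nlinarith
      by_cases hVV : T ∪ R = G.V
      · have ho0 := hoV R hVV
        rw [hVV] at hr2
        have h7 : (e : ℤ) = β := by
          have : e = β := by omega
          rw [this]
        rw [h7] at hr2 h6'
        linarith
      · by_cases ho' : 1 ≤ out G v (T ∪ R)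
        · have h7 := M.outb P hsub hvu hVV ho'
          rw [min_le_iff] at h7
          have h8 : (e : ℤ) + out G v (T ∪ R) = β := by exact_mod_cast h2'
          rcases h7 with h7 | h7 <;> linarith
        · have h10 := hp1 _ hsub hvu hVV
          have h7 : (e : ℤ) = β := by
            have : e = β := by omega
            rw [this]
          rw [h7] at hr2 h6'
          linarith
    · rw [if_neg hwR] at hr2
      have hwu : w ∉ T ∪ R := by
        rw [mem_union]
        tauto
      have h7 := hmin' _ hsub hvu hwu (by linarith)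
      have h8 : (e : ℤ) + out G v (T ∪ R) = β := by exact_mod_cast h2'
      rcases h7 with h7 | h7 <;> linarith

end

end Pool.Agent.Lib.MP_4006b4_co_d
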