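import Mathlib
import Pool.Agent.Lib.MP_4006b4_co_d.Bounds2

/-!
# The final colouring and the strategy at a bad vertex
-/

open Finset

namespace Pool.Agent.Lib.MP_4006b4_co_d

section

variable {a b : ℕ} {G : Str}

/-- If no vertex is bad, then the structure is colourable. -/
theorem final_col (wf : G.WF a b) (ht : ∀ v ∈ G.V, 1 ≤ G.t v)
    (hb : ∀ v ∈ G.V, G.s v ≤ kk G v G.V → kk G v G.V + nn G v G.V ≤ G.s v) : Colorable G := by
  classical
  obtain ⟨Z, hZ⟩ : ∃ Z, Z = G.V.filter (fun v => G.s v ≤ kk G v G.V) := ⟨_, rfl⟩
  have memZ : ∀ v, v ∈ Z ↔ v ∈ G.V ∧ G.s v ≤ kk G v G.V := by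
    intro v
    rw [hZ, mem_filter]
  obtain ⟨Q, hQ⟩ : ∃ Q : Finset ℕ → Prop, ∀ X, Q X ↔ ∀ p ∈ X, ∀ q ∈ X, G.h p q = 0 :=
    ⟨fun X => ∀ p ∈ X, ∀ q ∈ X, G.h p q = 0, fun _ => Iff.rfl⟩
  obtain ⟨X, hXm, hmax⟩ := exists_max_image (Z.powerset.filter Q) (fun X => #X)
    ⟨∅, by rw [mem_filter, hQ]; simp⟩
  rw [mem_filter, mem_powerset, hQ] at hXm
  obtain ⟨hXZ, hXi⟩ := hXm
  have hnn : ∀ v ∈ Z, ∀ w ∈ G.V, G.m v w = 0 := by
    intro v hv w hw
    have h1 := (memZ v).1 hv
    have h2 := hb v h1.1 h1.2
    have h3 : G.m v w ≤ nn G v G.V :=
      single_le_sum (f := fun r => G.m v r) (fun _ _ => Nat.zero_le _) hw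
    omega
  have hdom : ∀ v ∈ Z, v ∉ X → ∃ u ∈ X, G.h v u ≠ 0 := by
    intro v hv hvX
    by_contra hcon
    push Not at hcon
    have h1 : insert v X ∈ Z.powerset.filter Q := by
      rw [mem_filter, mem_powerset, hQ]
      refine ⟨insert_subset hv hXZ, ?_⟩
      intro p hp q hq
      rw [mem_insert] at hp hq
      rcases hp with rfl | hp
      · rcases hq with rfl | hq
        · exact wf.hirr _
        · exact hcon q hq
      · rcases hq with rfl | hq
        · rw [wf.hsymm]
          exact hcon p hp
        · exact hXi p hp q hq
    have h2 := hmax _ h1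
    rw [card_insert_of_notMem hvX] at h2
    omega
  refine ⟨fun v => decide (v ∈ X), fun _ _ => 0, ?_, ?_⟩
  · intro v hv w hw hne
    by_cases hvX : v ∈ X
    · rw [hnn v (hXZ hvX) w hw]
    · by_cases hwX : w ∈ X
      · rw [wf.msymm, hnn w (hXZ hwX) v hv]
      · exfalso
        apply hne
        simp [hvX, hwX]
  · intro v hv
    by_cases hvX : v ∈ X
    · have h1 : load G (fun v => decide (v ∈ X)) (fun _ _ => 0) G.V v = 0 := by
        unfold load
        refine sum_eq_zero fun w _ => ?_
        rw [add_zero]
        split_ifs with h
        · have hwX : w ∈ X := by simpa [hvX] using h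
          exact hXi v hvX w hwX
        · rfl
      rw [h1]
      have h2 : decide (v ∈ X) = true := decide_eq_true hvX
      rw [h2, thr_true]
      exact ht v hv
    · have h2 : decide (v ∈ X) = false := decide_eq_false hvX
      have h3 : load G (fun v => decide (v ∈ X)) (fun _ _ => 0) G.V v
          ≤ ∑ w ∈ G.V, (if w ∈ X then 0 else G.h v w) := by
        unfold load
        refine sum_le_sum fun w _ => ?_
        rw [add_zero]
        by_cases hwX : w ∈ X
        · rw [if_neg (by simp [hvX, hwX]), if_pos hwX]
        · rw [if_neg hwX]
          split_ifs <;> omega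
      have h4 : ∑ w ∈ G.V, (if w ∈ X then 0 else G.h v w)
          + ∑ w ∈ G.V, (if w ∈ X then G.h v w else 0) = kk G v G.V := by
        unfold kk
        rw [← sum_add_distrib]
        refine sum_congr rfl fun w _ => ?_
        split_ifs <;> simp
      rw [h2, thr_false]
      by_cases hvZ : v ∈ Z
      · obtain ⟨u, hu, huh⟩ := hdom v hvZ hvX
        have huV : u ∈ G.V := ((memZ u).1 (hXZ hu)).1
        have h5 : (if u ∈ X then G.h v u else 0) ≤ ∑ w ∈ G.V, (if w ∈ X then G.h v w else 0) :=
          single_le_sum (f := fun w => if w ∈ X then G.h v w else 0)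
            (fun _ _ => Nat.zero_le _) huV
        rw [if_pos hu] at h5
        have h6 := hb v hv ((memZ v).1 hvZ).2
        omega
      · have h6 : ¬ G.s v ≤ kk G v G.V := fun h => hvZ ((memZ v).2 ⟨hv, h⟩)
        omega

/-- Thresholds after putting `v` into the first part, with a spare unit for `y`. -/
def st (G : Str) (v y : ℕ) : ℕ → ℕ := fun u =>
  if G.h v u = 0 then G.t u else if u = y then G.t u - 1 else 0

theorem MinCE.strat (M : MinCE a b G) (P : Par a b) (hb3 : b ≤ 3)
    (h2 : ∀ v ∈ G.V, ∀ w ∈ G.V, G.h v w ≠ 0 → G.t v + 1 = b) {v y : ℕ} (hv : v ∈ G.V)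
    (hy : y ∈ G.V) (hvy : G.h v y ≠ 0) :
    ∃ S ⊆ G.V.erase v, S.Nonempty ∧
      rho a b G S ≤ (a : ℤ) * (b - 1) * kk G v S + b * nn G v S
        - (if y ∈ S then (a : ℤ) * (b - 2) else 0) - b := by
  classical
  have hyv : y ≠ v := fun h => hvy (by rw [h, M.wf.hirr])
  have htv := h2 v hv y hy hvy
  have hty := h2 y hy v hv (by rwa [M.wf.hsymm])
  have hb2 := P.b2
  have hst : ∀ u, st G v y u ≤ G.t u := by
    intro u
    unfold st
    split_ifs <;> omega
  have hVe : G.V.erase v ≠ G.V := fun h => notMem_erase v G.V (by rw [h]; exact hv)
  have hn : ¬ Colorable (G.sub (G.V.erase v) (st G v y) (fun u => G.s u - G.m v u)) := by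
    rintro ⟨x, B, hxB⟩
    let x' : ℕ → Bool := fun u => if u = v then true else x u
    let A : ℕ → ℕ → ℕ := fun u w => if u = v then 0 else
      if w = v then (if x u then 0 else G.m v u) else B u w
    have hx'v : x' v = true := if_pos rfl
    have hx' : ∀ u, u ≠ v → x' u = x u := fun u hu => if_neg hu
    have hAv : ∀ w, A v w = 0 := fun w => if_pos rfl
    have hAw : ∀ u, u ≠ v → A u v = if x u then 0 else G.m v u := by
      intro u hu
      show (if u = v then 0 else if v = v then (if x u then 0 else G.m v u) else B u v) = _
      rw [if_neg hu, if_pos rfl]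
    have hAB : ∀ u w, u ≠ v → w ≠ v → A u w = B u w := by
      intro u w hu hw
      show (if u = v then 0 else if w = v then (if x u then 0 else G.m v u) else B u w) = _
      rw [if_neg hu, if_neg hw]
    have hxw : ∀ w ∈ G.V, w ≠ v → w ≠ y → G.h v w ≠ 0 → x w = false := by
      intro w hw hwv hwy hh
      by_contra hx
      have hx1 : x w = true := by simpa using hx
      have h3 := hxB.cap w (mem_erase.2 ⟨hwv, hw⟩)
      rw [hx1, thr_true] at h3
      have h4 : (G.sub (G.V.erase v) (st G v y) (fun u => G.s u - G.m v u)).t w = 0 := by
        show st G v y w = 0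
        unfold st
        rw [if_neg hh, if_neg hwy]
      omega
    refine M.nc ⟨x', A, ?_, ?_⟩
    · intro u hu w hw hne
      by_cases huv : u = v
      · subst huv
        by_cases hwu : w = u
        · subst hwu
          exact absurd rfl hne
        · rw [hx'v, hx' w hwu] at hne
          have hxwf : x w = false := by
            cases h : x w
            · rfl
            · rw [h] at hne
              exact absurd rfl hne
          rw [hAw w hwu, hxwf]
          simp
      · by_cases hwv : w = v
        · subst hwv
          rw [hx'v, hx' u huv] at hne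
          have hxuf : x u = false := by
            cases h : x u
            · rfl
            · rw [h] at hne
              exact absurd rfl hne
          rw [hAw u huv, hxuf, M.wf.msymm]
          simp
        · rw [hAB u w huv hwv, hAB w u hwv huv]
          rw [hx' u huv, hx' w hwv] at hne
          exact hxB.cov u (mem_erase.2 ⟨huv, hu⟩) w (mem_erase.2 ⟨hwv, hw⟩) hne
    · intro u hu
      by_cases huv : u = v
      · subst huv
        have h3 : load G x' A G.V u ≤ if x y then 1 else 0 := by
          have h4 : load G x' A G.V u ≤ ∑ w ∈ G.V, if w = y then (if x y then 1 else 0) else 0 := by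
            unfold load
            refine sum_le_sum fun w hw => ?_
            rw [hAv, add_zero, hx'v]
            by_cases hwu : w = u
            · rw [hwu, M.wf.hirr]
              split_ifs <;> omega
            · rw [hx' w hwu]
              by_cases hwy : w = y
              · rw [if_pos hwy, hwy]
                have := M.wf.hle u y
                cases x y
                · simp
                · simp only [if_true]
                  exact this
              · rw [if_neg hwy]
                by_cases hh : G.h u w = 0
                · rw [hh]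
                  split_ifs <;> omega
                · rw [hxw w hw hwu hwy hh]
                  simp
          rw [sum_ite_eq', if_pos hy] at h4
          exact h4
        rw [hx'v, thr_true]
        cases hxy : x y
        · rw [hxy] at h3
          simp only [Bool.false_eq_true, if_false] at h3
          omega
        · rw [hxy] at h3
          simp only [if_true] at h3
          have h5 := hxB.cap y (mem_erase.2 ⟨hyv, hy⟩)
          rw [hxy, thr_true] at h5
          have h6 : (G.sub (G.V.erase u) (st G u y) (fun w => G.s w - G.m u w)).t y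
              = G.t y - 1 := by
            show st G u y y = _
            unfold st
            rw [if_neg hvy, if_pos rfl]
          omega
      · have hsplit : load G x' A G.V u = ((if x' u = x' v then G.h u v else 0) + A u v)
            + ∑ w ∈ G.V.erase v, ((if x' u = x' w then G.h u w else 0) + A u w) := by
          unfold load
          rw [← add_sum_erase _ _ hv]
        have hrest : ∑ w ∈ G.V.erase v, ((if x' u = x' w then G.h u w else 0) + A u w)
            = load (G.sub (G.V.erase v) (st G v y) (fun u => G.s u - G.m v u)) x B
              (G.V.erase v) u := by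
          unfold load
          refine sum_congr rfl fun w hw => ?_
          have hwv : w ≠ v := ne_of_mem_erase hw
          rw [hAB u w huv hwv, hx' u huv, hx' w hwv]
          rfl
        have h5 := hxB.cap u (mem_erase.2 ⟨huv, hu⟩)
        have hVV : (G.sub (G.V.erase v) (st G v y) (fun u => G.s u - G.m v u)).V
          = G.V.erase v := rfl
        rw [hVV] at h5
        rw [hsplit, hrest, hx'v, hAw u huv, hx' u huv]
        cases hxu : x u
        · rw [hxu, thr_false] at h5
          rw [thr_false]
          have h6 : (G.sub (G.V.erase v) (st G v y) (fun u => G.s u - G.m v u)).s u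
              = G.s u - G.m v u := rfl
          rw [h6] at h5
          simp only [Bool.false_eq_true, if_false]
          omega
        · rw [hxu, thr_true] at h5
          rw [thr_true]
          have h6 : (G.sub (G.V.erase v) (st G v y) (fun u => G.s u - G.m v u)).t u
              = st G v y u := rfl
          rw [h6] at h5
          simp only [if_true]
          by_cases hh : G.h v u = 0
          · have h7 : G.h u v = 0 := by rw [M.wf.hsymm]; exact hh
            have h8 : st G v y u = G.t u := if_pos hh
            rw [h8] at h5
            omega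
          · have h7 : G.h u v ≤ 1 := M.wf.hle u v
            have h8 : st G v y u = if u = y then G.t u - 1 else 0 := if_neg hh
            rw [h8] at h5
            split_ifs at h5 <;> omega
  obtain ⟨S, hS, hSne, hr⟩ := M.sub (erase_subset v G.V) hVe hst
    (fun u => Nat.sub_le _ _) hn
  refine ⟨S, hS, hSne, ?_⟩
  have ha0 : (0 : ℤ) ≤ a := Int.natCast_nonneg _
  have hb0 : (0 : ℤ) ≤ b := Int.natCast_nonneg _
  have c1 : ∑ u ∈ S, (a : ℤ) * ((G.t u : ℤ) - st G v y u)
      ≤ (a : ℤ) * (b - 1) * kk G v S - (if y ∈ S then (a : ℤ) * (b - 2) else 0) := by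
    have e1 : ∑ u ∈ S, (a : ℤ) * ((G.t u : ℤ) - st G v y u)
        = ∑ u ∈ S, ((a : ℤ) * (b - 1) * G.h v u - if u = y then (a : ℤ) * (b - 2) else 0) := by
      refine sum_congr rfl fun u hu => ?_
      have huV : u ∈ G.V := mem_of_mem_erase (hS hu)
      unfold st
      by_cases hh : G.h v u = 0
      · have huy : u ≠ y := fun h => hvy (by rw [← h]; exact hh)
        rw [if_pos hh, if_neg huy, hh]
        push_cast
        ring
      · have hh1 : G.h v u = 1 := by
          have := M.wf.hle v u
          omega
        have htu := h2 u huV v hv (by rw [M.wf.hsymm]; exact hh)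
        have htu' : (G.t u : ℤ) = b - 1 := by
          have : (G.t u : ℤ) + 1 = b := by exact_mod_cast htu
          linarith
        rw [if_neg hh, hh1]
        by_cases huy : u = y
        · rw [if_pos huy, if_pos huy]
          have : ((G.t u - 1 : ℕ) : ℤ) = (G.t u : ℤ) - 1 := by
            have : 1 ≤ G.t u := by omega
            push_cast [this]
            ring
          rw [this, htu']
          push_cast
          ring
        · rw [if_neg huy, if_neg huy, htu']
          push_cast
          ring
    rw [e1, sum_sub_distrib, sum_ite_eq', ← mul_sum]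
    unfold kk
    push_cast
    exact le_rfl
  have c2 : ∑ u ∈ S, (b : ℤ) * ((G.s u : ℤ) - ((G.s u - G.m v u : ℕ) : ℤ)) ≤ b * nn G v S := by
    unfold nn
    push_cast
    rw [mul_sum]
    refine sum_le_sum fun u _ => mul_le_mul_of_nonneg_left ?_ hb0
    omega
  linarith

end

end Pool.Agent.Lib.MP_4006b4_co_d
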