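import Mathlib
import Pool.Agent.Lib.MP_4006b4_co_d.Strat

/-!
# The cases `b = 2, 3`, `a ≥ 2 b`
-/

open Finset

namespace Pool.Agent.Lib.MP_4006b4_co_d

section

variable {a b : ℕ} {G : Str}

/-- `b = 3`: vertices incident with an edge have `t = 2`. -/
theorem MinCE.heavy (M : MinCE a 3 G) (P : Par a 3) {v w : ℕ} (hv : v ∈ G.V) (hw : w ∈ G.V)
    (hh : G.h v w ≠ 0) : G.t v + 1 = 3 := by
  classical
  have h1 := M.wf.tb v hv w hw hh
  have h2 := M.tpos P hv
  by_contra hcon
  have ht : G.t v = 1 := by omega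
  have hvw : v ≠ w := fun h => hh (by rw [h, M.wf.hirr])
  have hJ := P.hJ
  have ha0 : (0 : ℤ) ≤ a := Int.natCast_nonneg _
  have hcol : Colorable (G.rem v w 1 0 (dec G.t v) (dec (dec G.s v) w)) := by
    by_contra hn
    obtain ⟨S, hS, hSne, hSV, hr⟩ := M.rem2 (cp := (a : ℤ) + 3) (cq := 3) hv hw hvw
      (by omega) (Nat.zero_le _) rfl
      (dec_le _ _) (fun u => (dec_le _ _ _).trans (dec_le _ _ _)) (fun S => by
        have c1 := sum_dec_le (f := G.t) (u := v) S ha0
        have c2 := sum_dec2_le (f := G.s) (u := v) (w := w) S (c := ((3 : ℕ) : ℤ)) (by norm_num)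
        split_ifs at c1 c2 ⊢ <;> push_cast at c1 c2 ⊢ <;> linarith)
      (by push_cast at hJ ⊢; linarith) hn
    rcases hr with ⟨h3, h4, h5⟩ | ⟨h3, h4, h5⟩
    · have := M.nosep P hS h3 hw h4 hh
      push_cast at h5
      linarith
    · have := M.p1' P hS hSne hSV
      push_cast at h5 this hJ
      linarith
  obtain ⟨x, B, hc⟩ := hcol
  refine M.nc (restore hw hvw hc ?_)
  intro u hu
  have hcu := hc.cap u hu
  have hVV : (G.rem v w 1 0 (dec G.t v) (dec (dec G.s v) w)).V = G.V := rfl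
  rw [hVV] at hcu
  have hxv : x v = false := by
    by_contra hx
    have hx' : x v = true := by simpa using hx
    have := hc.cap v hv
    rw [hx', thr_true] at this
    have h5 : (G.rem v w 1 0 (dec G.t v) (dec (dec G.s v) w)).t v = G.t v - 1 := dec_self _ _
    omega
  have hz : (if u = v then 0 else 0) = 0 := by split_ifs <;> rfl
  rw [hz, add_zero]
  by_cases huv : u = v
  · subst huv
    rw [hxv, thr_false] at hcu ⊢
    have h5 : (G.rem u w 1 0 (dec G.t u) (dec (dec G.s u) w)).s u = G.s u - 1 := by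
      show dec (dec G.s u) w u = _
      rw [dec_ne _ hvw, dec_self]
    rw [h5] at hcu
    split_ifs <;> omega
  · by_cases huw : u = w
    · subst huw
      cases hxu : x u
      · rw [hxu, thr_false] at hcu
        rw [thr_false]
        have h5 : (G.rem v u 1 0 (dec G.t v) (dec (dec G.s v) u)).s u = G.s u - 1 := by
          show dec (dec G.s v) u u = _
          rw [dec_self, dec_ne _ huv]
        rw [h5] at hcu
        split_ifs <;> omega
      · rw [hxu, thr_true] at hcu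
        rw [thr_true, hxv, if_neg (by simp), add_zero]
        refine hcu.trans ?_
        exact dec_le _ _ _
    · rw [if_neg (fun h => by tauto), add_zero]
      refine hcu.trans ?_
      unfold thr
      split_ifs
      · exact dec_le _ _ _
      · exact (dec_le _ _ _).trans (dec_le _ _ _)

/-- The violating set as a set containing `v`. -/
theorem MinCE.strat2 (M : MinCE a b G) (P : Par a b) (hb3 : b ≤ 3)
    (h2 : ∀ v ∈ G.V, ∀ w ∈ G.V, G.h v w ≠ 0 → G.t v + 1 = b) {v y : ℕ} (hv : v ∈ G.V)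
    (hy : y ∈ G.V) (hvy : G.h v y ≠ 0) :
    ∃ S ⊆ G.V.erase v, 1 ≤ kk G v S + nn G v S ∧
      rho a b G (insert v S) ≤ (a : ℤ) * (b - 1) + b * G.s v - 2 * b
        - ((a : ℤ) - b) * ((kk G v S + nn G v S : ℕ) : ℤ)
        - (if y ∈ S then (a : ℤ) * (b - 2) else 0) := by
  classical
  obtain ⟨S, hS, hSne, hr⟩ := M.strat P hb3 h2 hv hy hvy
  have hvS : v ∉ S := fun h => notMem_erase v G.V (hS h)
  have hSV : S ⊆ G.V := hS.trans (erase_subset _ _)
  refine ⟨S, hS, ?_, ?_⟩
  · by_contra h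
    have h3 : kk G v S = 0 := by omega
    have h4 : nn G v S = 0 := by omega
    have h5 : y ∉ S := by
      intro hyS
      have : G.h v y ≤ kk G v S :=
        single_le_sum (f := fun r => G.h v r) (fun _ _ => Nat.zero_le _) hyS
      omega
    rw [h3, h4, if_neg h5] at hr
    have := M.pos S hSV hSne
    push_cast at hr
    linarith
  · rw [rho_insert M.wf hvS]
    have hw : ∑ w ∈ S, wt a b G v w = (b : ℤ) * (a - 1) * kk G v S + a * nn G v S := by
      unfold kk nn wt
      push_cast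
      rw [mul_sum, mul_sum, ← sum_add_distrib]
    have ht := h2 v hv y hy hvy
    have ht' : (G.t v : ℤ) = b - 1 := by
      have : (G.t v : ℤ) + 1 = b := by exact_mod_cast ht
      linarith
    rw [hw]
    unfold rv
    rw [ht']
    push_cast
    nlinarith

theorem kk_erase (wf : G.WF a b) {v : ℕ} (hv : v ∈ G.V) : kk G v (G.V.erase v) = kk G v G.V := by
  unfold kk
  rw [← add_sum_erase _ _ hv, wf.hirr, zero_add]

theorem nn_erase (wf : G.WF a b) {v : ℕ} (hv : v ∈ G.V) : nn G v (G.V.erase v) = nn G v G.V := by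
  unfold nn
  rw [← add_sum_erase _ _ hv, wf.mirr, zero_add]

theorem out_insert (wf : G.WF a b) {v : ℕ} (hv : v ∈ G.V) {S : Finset ℕ} (hS : S ⊆ G.V.erase v) :
    (kk G v S + nn G v S) + out G v (insert v S) = kk G v G.V + nn G v G.V := by
  have hR : S ⊆ G.V \ {v} := by
    intro u hu
    have := mem_erase.1 (hS hu)
    rw [mem_sdiff, mem_singleton]
    exact ⟨this.2, this.1⟩
  have h1 := out_union (G := G) (w := v) (T := {v}) hR
  have h2 : ({v} : Finset ℕ) ∪ S = insert v S := by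
    rw [insert_eq]
  rw [h2] at h1
  rw [h1, ← kk_erase wf hv, ← nn_erase wf hv]
  unfold out kk nn
  rw [← sum_add_distrib, sdiff_singleton_eq_erase]

/-- The three cases for the violating set. -/
theorem cases3 (wf : G.WF a b) {v : ℕ} (hv : v ∈ G.V) {S : Finset ℕ} (hS : S ⊆ G.V.erase v)
    {y : ℕ} (hy : y ∈ G.V) (hvy : G.h v y ≠ 0) :
    (insert v S = G.V ∧ y ∈ S ∧ kk G v S + nn G v S = kk G v G.V + nn G v G.V) ∨
    (insert v S ≠ G.V ∧ y ∈ S ∧ kk G v S = kk G v G.V) ∨
    (∃ w ∈ G.V, w ∉ insert v S ∧ G.h v w ≠ 0) := by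
  classical
  have hyv : y ≠ v := fun h => hvy (by rw [h, wf.hirr])
  by_cases hex : ∃ w ∈ G.V, w ∉ insert v S ∧ G.h v w ≠ 0
  · exact Or.inr (Or.inr hex)
  · push Not at hex
    have hyS : y ∈ S := by
      by_contra h
      refine hvy (hex y hy ?_)
      rw [mem_insert, not_or]
      exact ⟨hyv, h⟩
    by_cases hV : insert v S = G.V
    · left
      refine ⟨hV, hyS, ?_⟩
      have := out_insert wf hv hS
      rw [hV] at this
      have h0 : out G v G.V = 0 := by
        unfold out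
        rw [sdiff_self]
        rfl
      omega
    · right
      left
      refine ⟨hV, hyS, ?_⟩
      rw [← kk_erase wf hv]
      unfold kk
      refine sum_subset hS fun w hw hwS => ?_
      have h1 := mem_erase.1 hw
      refine hex w h1.2 ?_
      rw [mem_insert, not_or]
      exact ⟨h1.1, hwS⟩

theorem kk_exists {v : ℕ} {X : Finset ℕ} (h : 1 ≤ kk G v X) : ∃ y ∈ X, G.h v y ≠ 0 := by
  by_contra hcon
  push Not at hcon
  have : kk G v X = 0 := sum_eq_zero fun y hy => hcon y hy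
  omega

theorem MinCE.nobad2 (M : MinCE a 2 G) (P : Par a 2) {v : ℕ} (hv : v ∈ G.V)
    (hk : G.s v ≤ kk G v G.V) : kk G v G.V + nn G v G.V ≤ G.s v := by
  classical
  by_contra hd
  have hs := M.spos P hv
  obtain ⟨y, hy, hvy⟩ := kk_exists (G := G) (v := v) (X := G.V) (by omega)
  have h2 : ∀ v ∈ G.V, ∀ w ∈ G.V, G.h v w ≠ 0 → G.t v + 1 = 2 := by
    intro v hv w hw hh
    have h1 := M.wf.tb v hv w hw hh
    have h2 := M.tpos P hv
    omega
  obtain ⟨S, hS, hi, hr⟩ := M.strat2 P (by norm_num) h2 hv hy hvy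
  obtain ⟨i, hid⟩ : ∃ i, i = kk G v S + nn G v S := ⟨_, rfl⟩
  have hsub : insert v S ⊆ G.V := insert_subset hv (hS.trans (erase_subset _ _))
  have ha : (4 : ℤ) ≤ a := by
    have := P.hJ
    push_cast at this
    linarith
  have hVge : (-1 : ℤ) ≤ rho a 2 G G.V := by
    have := M.rhoV
    push_cast at this
    linarith
  have hsb : (G.s v : ℤ) + 1 ≤ a := by exact_mod_cast M.wf.sb v hv y hy hvy
  have hs0 : (1 : ℤ) ≤ G.s v := by exact_mod_cast hs
  rw [← hid] at hr hi
  push_cast at hr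
  have hz : (if y ∈ S then (a : ℤ) * 0 else 0) = 0 := by split_ifs <;> ring
  rw [hz] at hr
  rcases cases3 M.wf hv hS hy hvy with ⟨hV, _, h3⟩ | ⟨hV, _, h3⟩ | ⟨w, hw, hwT, hh⟩
  · rw [hV] at hr
    have h4 : (G.s v : ℤ) + 1 ≤ i := by
      have : G.s v + 1 ≤ i := by omega
      exact_mod_cast this
    have h5 : ((a : ℤ) - 2) * (G.s v + 1) ≤ ((a : ℤ) - 2) * i :=
      mul_le_mul_of_nonneg_left h4 (by linarith)
    nlinarith
  · have h4 : (G.s v : ℤ) ≤ i := by
      have : G.s v ≤ i := by omega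
      exact_mod_cast this
    have h5 : ((a : ℤ) - 2) * G.s v ≤ ((a : ℤ) - 2) * i :=
      mul_le_mul_of_nonneg_left h4 (by linarith)
    have h6 := M.p1 P hsub ⟨v, mem_insert_self _ _⟩ hV
    nlinarith
  · have h4 : (1 : ℤ) ≤ i := by exact_mod_cast hi
    have h5 : ((a : ℤ) - 2) * 1 ≤ ((a : ℤ) - 2) * i :=
      mul_le_mul_of_nonneg_left h4 (by linarith)
    have h6 := M.sepTwo P hsub (mem_insert_self _ _) hw hwT hh
    linarith

theorem MinCE.nobad3 (M : MinCE a 3 G) (P : Par a 3) {v : ℕ} (hv : v ∈ G.V)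
    (hk : G.s v ≤ kk G v G.V) : kk G v G.V + nn G v G.V ≤ G.s v := by
  classical
  by_contra hd
  have hs := M.spos P hv
  obtain ⟨y, hy, hvy⟩ := kk_exists (G := G) (v := v) (X := G.V) (by omega)
  have h2 : ∀ v ∈ G.V, ∀ w ∈ G.V, G.h v w ≠ 0 → G.t v + 1 = 3 :=
    fun v hv w hw hh => M.heavy P hv hw hh
  obtain ⟨S, hS, hi, hr⟩ := M.strat2 P le_rfl h2 hv hy hvy
  obtain ⟨i, hid⟩ : ∃ i, i = kk G v S + nn G v S := ⟨_, rfl⟩
  have hsub : insert v S ⊆ G.V := insert_subset hv (hS.trans (erase_subset _ _))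
  have ha : (6 : ℤ) ≤ a := by
    have := P.hJ
    push_cast at this
    linarith
  have hVge : (-2 : ℤ) ≤ rho a 3 G G.V := by
    have := M.rhoV
    push_cast at this
    linarith
  have hsb : (G.s v : ℤ) + 1 ≤ a := by exact_mod_cast M.wf.sb v hv y hy hvy
  have hs0 : (1 : ℤ) ≤ G.s v := by exact_mod_cast hs
  have hout := out_insert M.wf hv hS
  rw [← hid] at hr hi hout
  push_cast at hr
  rcases cases3 M.wf hv hS hy hvy with ⟨hV, hyS, h3⟩ | ⟨hV, hyS, h3⟩ | ⟨w, hw, hwT, hh⟩
  · rw [hV, if_pos hyS] at hr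
    have h4 : (G.s v : ℤ) + 1 ≤ i := by
      have : G.s v + 1 ≤ i := by omega
      exact_mod_cast this
    have h5 : ((a : ℤ) - 3) * (G.s v + 1) ≤ ((a : ℤ) - 3) * i :=
      mul_le_mul_of_nonneg_left h4 (by linarith)
    nlinarith
  · rw [if_pos hyS] at hr
    have h4 : (G.s v : ℤ) ≤ i := by
      have : G.s v ≤ i := by omega
      exact_mod_cast this
    have h5 : ((a : ℤ) - 3) * G.s v ≤ ((a : ℤ) - 3) * i :=
      mul_le_mul_of_nonneg_left h4 (by linarith)
    have h6 := M.p1 P hsub ⟨v, mem_insert_self _ _⟩ hV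
    nlinarith
  · have h4 : (1 : ℤ) ≤ i := by exact_mod_cast hi
    have h5 : ((a : ℤ) - 3) * 1 ≤ ((a : ℤ) - 3) * i :=
      mul_le_mul_of_nonneg_left h4 (by linarith)
    have h5' : (3 : ℤ) * i ≤ ((a : ℤ) - 3) * i := by nlinarith
    have h6 := M.sepThree P hsub (mem_insert_self _ _) hw hwT hh
    have h7 : (0 : ℤ) ≤ if y ∈ S then (a : ℤ) * 1 else 0 := by
      split_ifs <;> linarith
    have h8 : (G.s v : ℤ) + 1 ≤ i + out G v (insert v S) := by
      have : G.s v + 1 ≤ i + out G v (insert v S) := by omega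
      exact_mod_cast this
    rw [min_le_iff] at h6
    rcases h6 with h6 | h6 <;> linarith

end

/-- **Main theorem** for `b = 2, 3` and `a ≥ 2 b`. -/
theorem mainBK {a b : ℕ} (hb : b = 2 ∨ b = 3) (hab : 2 * b ≤ a) (G : Str) (wf : G.WF a b)
    (pos : ∀ S ⊆ G.V, S.Nonempty → -(b : ℤ) + 1 ≤ rho a b G S) : Colorable G := by
  revert wf pos
  refine less_wf.induction (C := fun G => G.WF a b →
    (∀ S ⊆ G.V, S.Nonempty → -(b : ℤ) + 1 ≤ rho a b G S) → Colorable G) G ?_
  intro G ih wf pos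
  by_contra hnc
  have M : MinCE a b G := ⟨wf, pos, hnc, fun G' wf' pos' hl => ih G' hl wf' pos'⟩
  have P : Par a b := ⟨by omega, hab⟩
  refine hnc (final_col wf (fun v hv => M.tpos P hv) ?_)
  rcases hb with rfl | rfl
  · exact fun v hv hk => M.nobad2 P hv hk
  · exact fun v hv hk => M.nobad3 P hv hk

end Pool.Agent.Lib.MP_4006b4_co_d
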