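import Mathlib
import Pool.Agent.Lib.MP_4006b4_co_b.Port
import Pool.Agent.Lib.MP_4006b4_co_c.Part3
import Pool.Agent.Lib.MP_4006b4_co_d.Main

/-!
# All cases `b ≥ 2`, `a ≥ b + 2`
-/

open Finset

namespace Pool.Agent.Lib.MP_4006b4_co_d

/-- The same structure in the library `_b`. -/
def toB (G : Str) : Pool.Agent.Lib.MP_4006b4_co_b.Str := ⟨G.V, G.h, G.m, G.t, G.s⟩

/-- The same structure in the library `_c`. -/
def toC (G : Str) : Pool.Agent.Lib.MP_4006b4_co_c.Str := ⟨G.V, G.h, G.m, G.t, G.s⟩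

theorem toB_rho (a b : ℕ) (G : Str) (S : Finset ℕ) :
    Pool.Agent.Lib.MP_4006b4_co_b.rho a b (toB G) S = rho a b G S := rfl

theorem toC_rho (a b : ℕ) (G : Str) (S : Finset ℕ) :
    Pool.Agent.Lib.MP_4006b4_co_c.rho a b (toC G) S = rho a b G S := rfl

/-- **Main theorem**, all parameters. -/
theorem main_all {a b : ℕ} (hb : 2 ≤ b) (hab : b + 2 ≤ a) (G : Str) (wf : G.WF a b)
    (pos : ∀ S ⊆ G.V, S.Nonempty → -(b : ℤ) + 1 ≤ rho a b G S) : Colorable G := by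
  by_cases h1 : (b = 2 ∨ b = 3) ∧ 2 * b ≤ a
  · exact mainBK h1.1 h1.2 G wf pos
  · by_cases h2 : a = 5 ∧ b = 3
    · obtain ⟨rfl, rfl⟩ := h2
      obtain ⟨x, A, h⟩ := Pool.Agent.Lib.MP_4006b4_co_c.main53 (toC G)
        ⟨wf.hsymm, wf.msymm, wf.hirr, wf.mirr, wf.hle, wf.tb, wf.sb⟩ (fun S hS hne => by
          have := pos S hS hne
          push_cast at this
          rw [toC_rho]
          linarith)
      exact ⟨x, A, h.cov, h.cap⟩
    · have h3 : 4 ≤ b := by omega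
      obtain ⟨x, A, h⟩ := Pool.Agent.Lib.MP_4006b4_co_b.main (a := a) (b := b)
        ⟨by omega, hab, by nlinarith⟩ (toB G)
        ⟨wf.hsymm, wf.msymm, wf.hirr, wf.mirr, wf.hle, wf.tb, wf.sb⟩ (fun S hS hne =>
          pos S hS hne)
      exact ⟨x, A, h.cov, h.cap⟩

end Pool.Agent.Lib.MP_4006b4_co_d
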